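import Pool.Agent.Work.MP_89a7db_an.Main

/-!
Spaces of continuous functions (helper file for MP_89a7db_an).
-/

namespace BMD

open Finset NormedSpace
open scoped BoundedContinuousFunction

universe u

set_option maxSynthPendingDepth 3

theorem ck_infinite {K : Type*} [TopologicalSpace K] [CompactSpace K] [T2Space K] [Infinite K] :
    ¬ FiniteDimensional ℝ C(K, ℝ) := by
  intro hfin
  set N := Module.finrank ℝ C(K, ℝ) with hN
  obtain ⟨s, hs⟩ := Infinite.exists_subset_card_eq K (N + 1)
  let R : C(K, ℝ) →ₗ[ℝ] (s → ℝ) :=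
    { toFun := fun f x => f x
      map_add' := fun f g => rfl
      map_smul' := fun c f => rfl }
  have hR : Function.Surjective R := by
    intro g
    have hcl : IsClosed (s : Set K) := s.finite_toSet.isClosed
    have : Finite (s : Set K) := s.finite_toSet
    have : DiscreteTopology (s : Set K) := inferInstance
    let g' : C((s : Set K), ℝ) := ⟨fun x => g ⟨x.1, x.2⟩, continuous_of_discreteTopology⟩
    obtain ⟨G, hG⟩ := ContinuousMap.exists_restrict_eq hcl g'
    refine ⟨G, ?_⟩
    ext x
    have := congrArg (fun F : C((s : Set K), ℝ) => F ⟨x.1, x.2⟩) hG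
    exact this
  have h1 := LinearMap.finrank_le_finrank_of_surjective hR
  rw [Module.finrank_fintype_fun_eq_card, Fintype.card_coe, hs] at h1
  omega

theorem ck_diam {K : Type u} [TopologicalSpace K] [CompactSpace K] [T2Space K] [Infinite K] :
    bmDiam C(K, ℝ) = ⊤ := by
  have : IsOrderedModule ℝ (K →ᵇ ℝ) :=
    { smul_le_smul_of_nonneg_left := fun {a} ha {f g} hfg x => by
        change a * f x ≤ a * g x
        exact mul_le_mul_of_nonneg_left (hfg x) ha
      smul_le_smul_of_nonneg_right := fun {f} hf {a b} hab x => by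
        change a * f x ≤ b * f x
        exact mul_le_mul_of_nonneg_right hab (hf x) }
  let e := ContinuousMap.linearIsometryBoundedOfCompact K ℝ ℝ
  exact diam_top (L := K →ᵇ ℝ) ck_infinite (e.toContinuousLinearEquiv : C(K, ℝ) →L[ℝ] (K →ᵇ ℝ))
    ((inclusionInDoubleDual ℝ C(K, ℝ)).comp (e.symm.toContinuousLinearEquiv : (K →ᵇ ℝ) →L[ℝ] C(K, ℝ)))
    (fun x => by
      change inclusionInDoubleDual ℝ C(K, ℝ) (e.symm (e x)) = _
      rw [e.symm_apply_apply])

end BMD
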