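import Mathlib

/-!
Khinchine's inequality (lower `L¹` bound) for Rademacher sums and for order two chaos,
with elementary constants (helper file for MP_89a7db_an).
-/

namespace BMD

open Finset

/-- the sign attached to a Boolean -/
def sg (b : Bool) : ℝ := if b then 1 else -1

theorem sg_not (b : Bool) : sg (!b) = -sg b := by cases b <;> simp [sg]
theorem sg_sq (b : Bool) : sg b * sg b = 1 := by cases b <;> simp [sg]
theorem sg_abs (b : Bool) : |sg b| = 1 := by cases b <;> simp [sg]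

variable {ι : Type*} [Fintype ι] [DecidableEq ι]

/-- flipping one coordinate -/
def flip (i : ι) : (ι → Bool) ≃ (ι → Bool) where
  toFun ε := Function.update ε i (!ε i)
  invFun ε := Function.update ε i (!ε i)
  left_inv ε := by
    ext j; by_cases h : j = i
    · subst h; simp
    · simp [h]
  right_inv ε := by
    ext j; by_cases h : j = i
    · subst h; simp
    · simp [h]

theorem sum_sg_mul_eq_zero (i : ι) (F : (ι → Bool) → ℝ)
    (hF : ∀ ε, F (flip i ε) = F ε) : ∑ ε : ι → Bool, sg (ε i) * F ε = 0 := by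
  have h1 : ∑ ε : ι → Bool, sg (ε i) * F ε = ∑ ε : ι → Bool, sg ((flip i ε) i) * F (flip i ε) :=
    (Equiv.sum_comp (flip i) (fun ε => sg (ε i) * F ε)).symm
  have h2 : ∀ ε : ι → Bool, sg ((flip i ε) i) * F (flip i ε) = -(sg (ε i) * F ε) := by
    intro ε
    rw [hF]
    have : (flip i ε) i = !ε i := by simp [flip]
    rw [this, sg_not]; ring
  rw [Finset.sum_congr rfl (fun ε _ => h2 ε), Finset.sum_neg_distrib] at h1
  linarith

/-- partial Rademacher sum -/
def rad (a : ι → ℝ) (s : Finset ι) (ε : ι → Bool) : ℝ := ∑ i ∈ s, sg (ε i) * a i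

omit [Fintype ι] in
theorem rad_flip (a : ι → ℝ) (s : Finset ι) (i : ι) (hi : i ∉ s) (ε : ι → Bool) :
    rad a s (flip i ε) = rad a s ε := by
  unfold rad
  refine Finset.sum_congr rfl fun j hj => ?_
  have : (flip i ε) j = ε j := by
    have hji : j ≠ i := by rintro rfl; exact hi hj
    simp [flip, hji]
  rw [this]

theorem rad_moments (a : ι → ℝ) (s : Finset ι) :
    ∑ ε : ι → Bool, rad a s ε ^ 2 = (Fintype.card (ι → Bool) : ℝ) * ∑ i ∈ s, a i ^ 2 ∧
    ∑ ε : ι → Bool, rad a s ε ^ 4 ≤ 3 * (Fintype.card (ι → Bool) : ℝ) * (∑ i ∈ s, a i ^ 2) ^ 2 := by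
  induction s using Finset.induction_on with
  | empty => simp [rad]
  | insert i s hi ih =>
    obtain ⟨h2, h4⟩ := ih
    set M : ℝ := (Fintype.card (ι → Bool) : ℝ) with hM
    have hM0 : 0 ≤ M := by positivity
    set S : ℝ := ∑ i ∈ s, a i ^ 2 with hS
    have hins : ∀ ε, rad a (insert i s) ε = sg (ε i) * a i + rad a s ε := by
      intro ε; unfold rad; rw [Finset.sum_insert hi]
    have hc : ∑ _ε : ι → Bool, (1 : ℝ) = M := by simp [hM]
    have z1 : ∑ ε : ι → Bool, sg (ε i) * rad a s ε = 0 :=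
      sum_sg_mul_eq_zero i _ (fun ε => rad_flip a s i hi ε)
    have z3 : ∑ ε : ι → Bool, sg (ε i) * rad a s ε ^ 3 = 0 :=
      sum_sg_mul_eq_zero i _ (fun ε => by rw [rad_flip a s i hi ε])
    have hsum2 : ∑ ε : ι → Bool, rad a (insert i s) ε ^ 2 = M * (a i ^ 2 + S) := by
      have : ∀ ε : ι → Bool, rad a (insert i s) ε ^ 2 =
          a i ^ 2 * 1 + (2 * a i) * (sg (ε i) * rad a s ε) + rad a s ε ^ 2 := by
        intro ε; rw [hins]
        have := sg_sq (ε i)
        linear_combination (a i ^ 2) * this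
      rw [Finset.sum_congr rfl (fun ε _ => this ε), Finset.sum_add_distrib, Finset.sum_add_distrib,
        ← Finset.mul_sum, ← Finset.mul_sum, hc, z1, h2]
      ring
    refine ⟨by rw [hsum2, Finset.sum_insert hi], ?_⟩
    have hsum4 : ∑ ε : ι → Bool, rad a (insert i s) ε ^ 4 =
        M * a i ^ 4 + 6 * a i ^ 2 * (M * S) + ∑ ε : ι → Bool, rad a s ε ^ 4 := by
      have : ∀ ε : ι → Bool, rad a (insert i s) ε ^ 4 =
          a i ^ 4 * 1 + (4 * a i ^ 3) * (sg (ε i) * rad a s ε) + (6 * a i ^ 2) * rad a s ε ^ 2 +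
            (4 * a i) * (sg (ε i) * rad a s ε ^ 3) + rad a s ε ^ 4 := by
        intro ε; rw [hins]
        have h := sg_sq (ε i)
        have h3 : sg (ε i) ^ 3 = sg (ε i) := by linear_combination (sg (ε i)) * h
        have h4' : sg (ε i) ^ 4 = 1 := by linear_combination (sg (ε i) ^ 2 + 1) * h
        linear_combination (a i ^ 4) * h4' + (4 * a i ^ 3 * rad a s ε) * h3 +
          (6 * a i ^ 2 * rad a s ε ^ 2) * h
      rw [Finset.sum_congr rfl (fun ε _ => this ε)]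
      simp only [Finset.sum_add_distrib, ← Finset.mul_sum, hc, z1, z3, h2]
      ring
    rw [hsum4, Finset.sum_insert hi, ← hS]
    have : (0 : ℝ) ≤ M * a i ^ 4 := by positivity
    nlinarith [h4, this]

theorem abs_ge_poly (x t : ℝ) (ht : 0 < t) : 5 / 2 * (x ^ 2 / t - x ^ 4 / t ^ 3) ≤ |x| := by
  set y : ℝ := |x| / t with hy
  have hy0 : 0 ≤ y := by positivity
  have hx : |x| = y * t := by rw [hy]; field_simp
  have h2 : x ^ 2 = y ^ 2 * t ^ 2 := by rw [← sq_abs x, hx]; ring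
  have h4 : x ^ 4 = y ^ 4 * t ^ 4 := by
    have : x ^ 4 = (x ^ 2) ^ 2 := by ring
    rw [this, h2]; ring
  rw [h2, h4, hx]
  have h5 : y ^ 2 * t ^ 2 / t - y ^ 4 * t ^ 4 / t ^ 3 = (y ^ 2 - y ^ 4) * t := by
    field_simp
  rw [h5]
  have h6 : 5 / 2 * (y ^ 2 - y ^ 4) ≤ y := by
    have h7 : 0 ≤ y ^ 3 - y + 2 / 5 := by
      nlinarith [mul_nonneg (show (0 : ℝ) ≤ y + 29 / 25 by positivity) (sq_nonneg (y - 29 / 50))]
    nlinarith [mul_nonneg hy0 h7]
  calc 5 / 2 * ((y ^ 2 - y ^ 4) * t) = (5 / 2 * (y ^ 2 - y ^ 4)) * t := by ring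
    _ ≤ y * t := mul_le_mul_of_nonneg_right h6 ht.le

/-- Khinchine lower bound, not normalised: `√(∑ a²) ≤ 2 E|∑ ε a|` -/
theorem khinchine (a : ι → ℝ) : (Fintype.card (ι → Bool) : ℝ) * √(∑ i, a i ^ 2) ≤
    2 * ∑ ε : ι → Bool, |∑ i, sg (ε i) * a i| := by
  obtain ⟨h2, h4⟩ := rad_moments a Finset.univ
  set M : ℝ := (Fintype.card (ι → Bool) : ℝ) with hM
  set S : ℝ := ∑ i, a i ^ 2 with hS
  have hS0 : 0 ≤ S := Finset.sum_nonneg fun i _ => sq_nonneg _
  rcases hS0.eq_or_lt with h0 | hpos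
  · rw [← h0, Real.sqrt_zero, mul_zero]
    exact mul_nonneg (by norm_num) (Finset.sum_nonneg fun ε _ => abs_nonneg _)
  set r : ℝ := √S with hr
  have hr0 : 0 < r := Real.sqrt_pos.mpr hpos
  have hrS : r ^ 2 = S := Real.sq_sqrt hS0
  have hM0 : 0 ≤ M := by positivity
  have hsum : 5 / 2 * ((∑ ε : ι → Bool, rad a Finset.univ ε ^ 2) / (3 * r) -
      (∑ ε : ι → Bool, rad a Finset.univ ε ^ 4) / (3 * r) ^ 3) ≤
      ∑ ε : ι → Bool, |rad a Finset.univ ε| := by
    rw [Finset.sum_div, Finset.sum_div, ← Finset.sum_sub_distrib, Finset.mul_sum]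
    exact Finset.sum_le_sum fun ε _ => abs_ge_poly _ _ (by positivity)
  have h5 : (∑ ε : ι → Bool, rad a Finset.univ ε ^ 4) / (3 * r) ^ 3 ≤ M * r / 9 := by
    rw [div_le_iff₀ (by positivity)]
    refine h4.trans (le_of_eq ?_)
    rw [← hrS]; ring
  have h6 : (∑ ε : ι → Bool, rad a Finset.univ ε ^ 2) / (3 * r) = M * r / 3 := by
    rw [h2, ← hrS]; field_simp
  rw [h6] at hsum
  have h7 : ∑ ε : ι → Bool, |rad a Finset.univ ε| = ∑ ε : ι → Bool, |∑ i, sg (ε i) * a i| := rfl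
  rw [← h7]
  have h8 : 0 ≤ M * r := by positivity
  nlinarith [hsum, h5, h8]

/-- Khinchine lower bound for order two chaos: `√(∑ a²) ≤ 4 E|∑ ε_i δ_j a_ij|` -/
theorem chaos (a : ι → ι → ℝ) :
    (Fintype.card (ι → Bool) : ℝ) ^ 2 * √(∑ i, ∑ j, a i j ^ 2) ≤
    4 * ∑ ε : ι → Bool, ∑ δ : ι → Bool, |∑ i, ∑ j, sg (ε i) * sg (δ j) * a i j| := by
  set M : ℝ := (Fintype.card (ι → Bool) : ℝ) with hM
  have hM0 : 0 ≤ M := by positivity
  set S : ℝ := ∑ i, ∑ j, a i j ^ 2 with hS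
  have hS0 : 0 ≤ S := Finset.sum_nonneg fun i _ => Finset.sum_nonneg fun j _ => sq_nonneg _
  rcases hS0.eq_or_lt with h0 | hpos
  · rw [← h0, Real.sqrt_zero, mul_zero]
    exact mul_nonneg (by norm_num)
      (Finset.sum_nonneg fun ε _ => Finset.sum_nonneg fun δ _ => abs_nonneg _)
  have hr0 : 0 < √S := Real.sqrt_pos.mpr hpos
  -- row norms
  let R : ι → ℝ := fun i => √(∑ j, a i j ^ 2)
  have hR : ∀ i, R i ^ 2 = ∑ j, a i j ^ 2 :=
    fun i => Real.sq_sqrt (Finset.sum_nonneg fun j _ => sq_nonneg _)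
  have hR0 : ∀ i, 0 ≤ R i := fun i => Real.sqrt_nonneg _
  let b : (ι → Bool) → ι → ℝ := fun δ i => ∑ j, sg (δ j) * a i j
  -- step 1: Khinchine in ε for fixed δ
  have h1 : ∀ δ : ι → Bool, M * √(∑ i, b δ i ^ 2) ≤
      2 * ∑ ε : ι → Bool, |∑ i, ∑ j, sg (ε i) * sg (δ j) * a i j| := by
    intro δ
    refine (khinchine (b δ)).trans (le_of_eq ?_)
    congr 1
    refine Finset.sum_congr rfl fun ε _ => ?_
    congr 1
    refine Finset.sum_congr rfl fun i _ => ?_
    simp only [b]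
    rw [Finset.mul_sum]
    exact Finset.sum_congr rfl fun j _ => by ring
  -- step 2: duality
  have h2 : ∀ δ : ι → Bool, ∑ i, R i * |b δ i| ≤ √S * √(∑ i, b δ i ^ 2) := by
    intro δ
    have := Real.sum_mul_le_sqrt_mul_sqrt Finset.univ R (fun i => |b δ i|)
    have h3 : ∑ i, R i ^ 2 = S := by rw [hS]; exact Finset.sum_congr rfl fun i _ => hR i
    rw [h3] at this
    simpa only [sq_abs] using this
  have h3 : ∀ i, M * R i ≤ 2 * ∑ δ : ι → Bool, |b δ i| := fun i => khinchine (a i)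
  have h4 : M * S ≤ 2 * (√S * ∑ δ : ι → Bool, √(∑ i, b δ i ^ 2)) := by
    calc M * S = ∑ i, R i * (M * R i) := by
          rw [hS, Finset.mul_sum]
          exact Finset.sum_congr rfl fun i _ => by rw [← hR i]; ring
      _ ≤ ∑ i, R i * (2 * ∑ δ : ι → Bool, |b δ i|) :=
          Finset.sum_le_sum fun i _ => mul_le_mul_of_nonneg_left (h3 i) (hR0 i)
      _ = 2 * ∑ δ : ι → Bool, ∑ i, R i * |b δ i| := by
          rw [Finset.sum_comm, Finset.mul_sum]
          refine Finset.sum_congr rfl fun i _ => ?_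
          rw [Finset.mul_sum, Finset.mul_sum, Finset.mul_sum]
          exact Finset.sum_congr rfl fun δ _ => by ring
      _ ≤ 2 * ∑ δ : ι → Bool, √S * √(∑ i, b δ i ^ 2) := by
          gcongr with δ _; exact h2 δ
      _ = _ := by rw [← Finset.mul_sum]
  have hSS : S = √S * √S := (Real.mul_self_sqrt hS0).symm
  have h5 : M * √S ≤ 2 * ∑ δ : ι → Bool, √(∑ i, b δ i ^ 2) := by
    have h6 : √S * (M * √S) ≤ √S * (2 * ∑ δ : ι → Bool, √(∑ i, b δ i ^ 2)) := by
      calc √S * (M * √S) = M * S := by rw [hSS, Real.sqrt_mul_self (Real.sqrt_nonneg S)]; ring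
        _ ≤ _ := h4
        _ = _ := by ring
    exact le_of_mul_le_mul_left h6 hr0
  calc M ^ 2 * √S = M * (M * √S) := by ring
    _ ≤ M * (2 * ∑ δ : ι → Bool, √(∑ i, b δ i ^ 2)) := mul_le_mul_of_nonneg_left h5 hM0
    _ = 2 * ∑ δ : ι → Bool, M * √(∑ i, b δ i ^ 2) := by rw [← Finset.mul_sum]; ring
    _ ≤ 2 * ∑ δ : ι → Bool, 2 * ∑ ε : ι → Bool, |∑ i, ∑ j, sg (ε i) * sg (δ j) * a i j| :=
        mul_le_mul_of_nonneg_left (Finset.sum_le_sum fun δ _ => h1 δ) (by norm_num)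
    _ = 4 * ∑ ε : ι → Bool, ∑ δ : ι → Bool, |∑ i, ∑ j, sg (ε i) * sg (δ j) * a i j| := by
        rw [← Finset.mul_sum, Finset.sum_comm]; ring

end BMD
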