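import Pool.Agent.Work.MP_89a7db_an.Had

/-!
The matrix spaces do not factor well through discrete lattices (helper file for MP_89a7db_an):
an averaging argument with signs, in the spirit of Gordon and Lewis.
-/

namespace BMD

open Matrix Finset
open scoped Matrix.Norms.L2Operator

section Expand

variable {ι : Type*} [Fintype ι] [DecidableEq ι] {τ : Type*} [Fintype τ] [DecidableEq τ]

theorem P_expand (P : Matrix ι ι ℝ →ₗ[ℝ] (τ → ℝ)) (A : Matrix ι ι ℝ) (t : τ) :
    P A t = ∑ i, ∑ j, A i j * P (Matrix.single i j 1) t := by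
  conv_lhs => rw [Matrix.matrix_eq_sum_single A]
  rw [map_sum, Finset.sum_apply]
  refine Finset.sum_congr rfl fun i _ => ?_
  rw [map_sum, Finset.sum_apply]
  refine Finset.sum_congr rfl fun j _ => ?_
  have h : Matrix.single i j (A i j) = A i j • Matrix.single i j (1 : ℝ) := by
    rw [Matrix.smul_single, smul_eq_mul, mul_one]
  rw [h, map_smul, Pi.smul_apply, smul_eq_mul]

theorem Q_expand (Q : (τ → ℝ) →ₗ[ℝ] Matrix ι ι ℝ) (y : τ → ℝ) (i j : ι) :
    Q y i j = ∑ t, y t * Q (Pi.single t 1) i j := by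
  have h : y = ∑ t, y t • (Pi.single t (1 : ℝ) : τ → ℝ) := by
    ext s
    rw [Finset.sum_apply, Finset.sum_eq_single s]
    · simp
    · intro b _ hb; simp [Ne.symm hb]
    · simp
  conv_lhs => rw [h]
  rw [map_sum, Matrix.sum_apply]
  refine Finset.sum_congr rfl fun t _ => ?_
  rw [map_smul, Matrix.smul_apply, smul_eq_mul]

end Expand

section Core

variable {k : ℕ} {τ : Type*} [Fintype τ] [DecidableEq τ]

/-- subadditivity for finite sums -/
theorem nu_sum {S : Type*} (s : Finset S) (ν : (τ → ℝ) → ℝ)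
    (hadd : ∀ a b, ν (a + b) ≤ ν a + ν b) (hsmul : ∀ (c : ℝ) a, ν (c • a) = |c| * ν a)
    (F : S → τ → ℝ) : ν (∑ x ∈ s, F x) ≤ ∑ x ∈ s, ν (F x) := by
  classical
  induction s using Finset.induction_on with
  | empty =>
    have h := hsmul 0 0
    simp only [smul_zero, abs_zero, zero_mul] at h
    simp [h]
  | insert a s ha ih =>
    rw [Finset.sum_insert ha, Finset.sum_insert ha]
    exact (hadd _ _).trans (by linarith)

theorem sum_mul_le (a b : (Fin k → Bool) → (Fin k → Bool) → ℝ) :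
    ∑ i, ∑ j, a i j * b i j ≤ √(∑ i, ∑ j, a i j ^ 2) * √(∑ i, ∑ j, b i j ^ 2) := by
  have h := Real.sum_mul_le_sqrt_mul_sqrt (Finset.univ ×ˢ Finset.univ)
    (fun x : (Fin k → Bool) × (Fin k → Bool) => a x.1 x.2) (fun x => b x.1 x.2)
  rw [Finset.sum_product, Finset.sum_product, Finset.sum_product] at h
  exact h

theorem core (ν : (τ → ℝ) → ℝ) (hadd : ∀ a b, ν (a + b) ≤ ν a + ν b)
    (hsmul : ∀ (c : ℝ) a, ν (c • a) = |c| * ν a)
    (hmono : ∀ a b : τ → ℝ, (∀ t, |a t| ≤ |b t|) → ν a ≤ ν b)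
    (P : Matrix (Fin k → Bool) (Fin k → Bool) ℝ →ₗ[ℝ] (τ → ℝ))
    (Q : (τ → ℝ) →ₗ[ℝ] Matrix (Fin k → Bool) (Fin k → Bool) ℝ) (p q : ℝ)
    (hp : 0 ≤ p) (hq : 0 ≤ q) (hP : ∀ x, ν (P x) ≤ p * ‖x‖) (hQ : ∀ y, ‖Q y‖ ≤ q * ν y)
    (hPQ : ∀ x, ‖Q (P x) - x‖ ≤ 1 / 2 * ‖x‖) : √((2 : ℝ) ^ k) ≤ 32 * p * q := by
  set n : ℝ := (2 : ℝ) ^ k with hn
  have hn0 : 0 < n := by positivity
  have hcard : (Fintype.card (Fin k → Bool) : ℝ) = n := by simp [hn]
  set M : ℝ := (Fintype.card ((Fin k → Bool) → Bool) : ℝ) with hM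
  have hM0 : 0 < M := by rw [hM]; exact_mod_cast Fintype.card_pos
  let f : (Fin k → Bool) → (Fin k → Bool) → τ → ℝ := fun i j t => P (Matrix.single i j 1) t
  let g : (Fin k → Bool) → (Fin k → Bool) → τ → ℝ := fun i j t => Q (Pi.single t 1) i j
  let Sf : τ → ℝ := fun t => √(∑ i, ∑ j, f i j t ^ 2)
  let Sg : τ → ℝ := fun t => √(∑ i, ∑ j, g i j t ^ 2)
  have hSf0 : ∀ t, 0 ≤ Sf t := fun t => Real.sqrt_nonneg _
  -- lower bound
  have hlow : ∀ i j, 1 / 2 ≤ ∑ t, f i j t * g i j t := by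
    intro i j
    have h1 : (Q (P (Matrix.single i j 1))) i j = ∑ t, f i j t * g i j t := Q_expand Q _ i j
    have h2 := entry_le (Q (P (Matrix.single i j 1)) - Matrix.single i j 1) i j
    have h3 := hPQ (Matrix.single i j 1)
    have h4 := norm_single_le i j
    rw [Matrix.sub_apply, Matrix.single_apply_same, h1] at h2
    have h5 := (abs_le.mp (h2.trans (h3.trans (by linarith : _ ≤ (1 / 2 : ℝ))))).1
    linarith
  have hlow2 : n ^ 2 / 2 ≤ ∑ t, Sf t * Sg t := by
    have h1 : ∑ i : Fin k → Bool, ∑ j : Fin k → Bool, (1 / 2 : ℝ) ≤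
        ∑ i, ∑ j, ∑ t, f i j t * g i j t :=
      Finset.sum_le_sum fun i _ => Finset.sum_le_sum fun j _ => hlow i j
    have h2 : ∑ i, ∑ j, ∑ t, f i j t * g i j t = ∑ t, ∑ i, ∑ j, f i j t * g i j t := by
      rw [Finset.sum_comm]
      refine Eq.trans (Finset.sum_congr rfl fun j _ => Finset.sum_comm) ?_
      rw [Finset.sum_comm]
      exact Finset.sum_congr rfl fun t _ => Finset.sum_comm
    have h3 : ∑ t, ∑ i, ∑ j, f i j t * g i j t ≤ ∑ t, Sf t * Sg t :=
      Finset.sum_le_sum fun t _ => sum_mul_le (fun i j => f i j t) (fun i j => g i j t)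
    have h4 : ∑ i : Fin k → Bool, ∑ j : Fin k → Bool, (1 / 2 : ℝ) = n ^ 2 / 2 := by
      simp only [Finset.sum_const, Finset.card_univ, nsmul_eq_mul, hcard]
      ring
    rw [h4, h2] at h1
    exact h1.trans h3
  -- bound for the square function of `f`
  have hSf : ν Sf ≤ 4 * p * √n := by
    have h1 : ∀ t, M ^ 2 * Sf t ≤ 4 * ∑ ε, ∑ δ, |P (hadM ε δ) t| := by
      intro t
      have h := chaos (fun i j => had i j * f i j t)
      have e1 : ∀ i j : Fin k → Bool, (had i j * f i j t) ^ 2 = f i j t ^ 2 := by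
        intro i j; linear_combination (f i j t ^ 2) * had_sq i j
      have e2 : ∀ ε δ : (Fin k → Bool) → Bool,
          ∑ i, ∑ j, sg (ε i) * sg (δ j) * (had i j * f i j t) = P (hadM ε δ) t := by
        intro ε δ
        rw [P_expand]
        refine Finset.sum_congr rfl fun i _ => Finset.sum_congr rfl fun j _ => ?_
        simp only [hadM, f]
        ring
      simp only [e1, e2] at h
      exact h
    have h2 : ν (M ^ 2 • Sf) ≤ ν ((4 : ℝ) • ∑ ε, ∑ δ, fun t => |P (hadM ε δ) t|) := by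
      refine hmono _ _ fun t => ?_
      have e3 : ((4 : ℝ) • ∑ ε : (Fin k → Bool) → Bool, ∑ δ : (Fin k → Bool) → Bool,
          fun t => |P (hadM ε δ) t|) t = 4 * ∑ ε, ∑ δ, |P (hadM ε δ) t| := by
        simp only [Pi.smul_apply, Finset.sum_apply, smul_eq_mul]
      rw [e3]
      have e4 : (M ^ 2 • Sf) t = M ^ 2 * Sf t := rfl
      rw [e4, abs_of_nonneg (mul_nonneg (by positivity) (hSf0 t))]
      exact (h1 t).trans (le_abs_self _)
    rw [hsmul, hsmul, abs_of_pos (by positivity : (0 : ℝ) < M ^ 2),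
      abs_of_pos (by norm_num : (0 : ℝ) < 4)] at h2
    have h3 : ν (∑ ε : (Fin k → Bool) → Bool, ∑ δ : (Fin k → Bool) → Bool,
        fun t => |P (hadM ε δ) t|) ≤ M ^ 2 * (p * √n) := by
      refine (nu_sum _ ν hadd hsmul _).trans ?_
      have h4 : ∀ ε : (Fin k → Bool) → Bool,
          ν (∑ δ : (Fin k → Bool) → Bool, fun t => |P (hadM ε δ) t|) ≤ M * (p * √n) := by
        intro ε
        refine (nu_sum _ ν hadd hsmul _).trans ?_
        have h5 : ∀ δ : (Fin k → Bool) → Bool, ν (fun t => |P (hadM ε δ) t|) ≤ p * √n := by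
          intro δ
          have h6 : ν (fun t => |P (hadM ε δ) t|) ≤ ν (P (hadM ε δ)) :=
            hmono _ _ fun t => by rw [abs_abs]
          exact h6.trans ((hP _).trans (mul_le_mul_of_nonneg_left (hadM_norm ε δ) hp))
        refine (Finset.sum_le_sum fun δ _ => h5 δ).trans (le_of_eq ?_)
        rw [Finset.sum_const, Finset.card_univ, nsmul_eq_mul]
      refine (Finset.sum_le_sum fun ε _ => h4 ε).trans (le_of_eq ?_)
      rw [Finset.sum_const, Finset.card_univ, nsmul_eq_mul]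
      ring
    have h7 : M ^ 2 * ν Sf ≤ M ^ 2 * (4 * p * √n) := by
      refine h2.trans ?_
      nlinarith [h3]
    exact le_of_mul_le_mul_left h7 (by positivity)
  -- bound for the pairing
  have hpair : ∀ ε δ : (Fin k → Bool) → Bool,
      ∑ t, Sf t * |∑ i, ∑ j, sg (ε i) * sg (δ j) * g i j t| ≤ n * (q * ν Sf) := by
    intro ε δ
    set γ : τ → ℝ := fun t => ∑ i, ∑ j, sg (ε i) * sg (δ j) * g i j t with hγ
    let y : τ → ℝ := fun t => if 0 ≤ γ t then Sf t else -Sf t
    have hy : ∀ t, y t * γ t = Sf t * |γ t| := by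
      intro t
      by_cases h0 : 0 ≤ γ t
      · simp only [y, if_pos h0, abs_of_nonneg h0]
      · simp only [y, if_neg h0, abs_of_neg (not_le.mp h0)]
        ring
    have hy2 : ν y ≤ ν Sf := by
      refine hmono _ _ fun t => ?_
      by_cases h0 : 0 ≤ γ t
      · simp only [y, if_pos h0]; exact le_refl _
      · simp only [y, if_neg h0, abs_neg]; exact le_refl _
    have h1 : ∑ i, ∑ j, sg (ε i) * sg (δ j) * (Q y) i j = ∑ t, Sf t * |γ t| := by
      have e1 : ∀ i j, sg (ε i) * sg (δ j) * (Q y) i j =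
          ∑ t, y t * (sg (ε i) * sg (δ j) * g i j t) := by
        intro i j
        rw [Q_expand Q y i j, Finset.mul_sum]
        exact Finset.sum_congr rfl fun t _ => by ring
      simp only [e1]
      have e2 : ∑ i, ∑ j, ∑ t, y t * (sg (ε i) * sg (δ j) * g i j t) =
          ∑ t, ∑ i, ∑ j, y t * (sg (ε i) * sg (δ j) * g i j t) := by
        rw [Finset.sum_comm]
        refine Eq.trans (Finset.sum_congr rfl fun j _ => Finset.sum_comm) ?_
        rw [Finset.sum_comm]
        exact Finset.sum_congr rfl fun t _ => Finset.sum_comm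
      rw [e2]
      refine Finset.sum_congr rfl fun t _ => ?_
      rw [← hy t, hγ]
      simp only [Finset.mul_sum]
    have h2 := sign_le (Q y) ε δ
    rw [h1, hcard] at h2
    refine (le_abs_self _).trans (h2.trans ?_)
    refine mul_le_mul_of_nonneg_left ?_ hn0.le
    exact (hQ y).trans (mul_le_mul_of_nonneg_left hy2 hq)
  have hup : M ^ 2 * ∑ t, Sf t * Sg t ≤ M ^ 2 * (4 * (n * (q * ν Sf))) := by
    have h1 : ∀ t, M ^ 2 * (Sf t * Sg t) ≤
        4 * ∑ ε : (Fin k → Bool) → Bool, ∑ δ : (Fin k → Bool) → Bool,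
          Sf t * |∑ i, ∑ j, sg (ε i) * sg (δ j) * g i j t| := by
      intro t
      have h := mul_le_mul_of_nonneg_left (chaos (fun i j => g i j t)) (hSf0 t)
      calc M ^ 2 * (Sf t * Sg t) = Sf t * (M ^ 2 * √(∑ i, ∑ j, g i j t ^ 2)) := by
            simp only [Sg]; ring
        _ ≤ _ := h
        _ = _ := by simp only [Finset.mul_sum]; congr 1; ext; congr 1; ext; ring
    rw [Finset.mul_sum]
    refine (Finset.sum_le_sum fun t _ => h1 t).trans ?_
    rw [← Finset.mul_sum, Finset.sum_comm]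
    have h2 : ∑ ε : (Fin k → Bool) → Bool, ∑ t, ∑ δ : (Fin k → Bool) → Bool,
        Sf t * |∑ i, ∑ j, sg (ε i) * sg (δ j) * g i j t| ≤ M * (M * (n * (q * ν Sf))) := by
      have h3 : ∀ ε : (Fin k → Bool) → Bool, ∑ t, ∑ δ : (Fin k → Bool) → Bool,
          Sf t * |∑ i, ∑ j, sg (ε i) * sg (δ j) * g i j t| ≤ M * (n * (q * ν Sf)) := by
        intro ε
        rw [Finset.sum_comm]
        refine (Finset.sum_le_sum fun δ _ => hpair ε δ).trans (le_of_eq ?_)
        rw [Finset.sum_const, Finset.card_univ, nsmul_eq_mul]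
      refine (Finset.sum_le_sum fun ε _ => h3 ε).trans (le_of_eq ?_)
      rw [Finset.sum_const, Finset.card_univ, nsmul_eq_mul]
    nlinarith [h2]
  have hup2 : ∑ t, Sf t * Sg t ≤ 4 * (n * (q * ν Sf)) :=
    le_of_mul_le_mul_left hup (by positivity)
  have h3 : n ^ 2 / 2 ≤ 4 * (n * (q * (4 * p * √n))) :=
    hlow2.trans (hup2.trans (by
      have := mul_le_mul_of_nonneg_left hSf (mul_nonneg hn0.le hq)
      nlinarith [this]))
  have hs : √n * √n = n := Real.mul_self_sqrt hn0.le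
  have hs0 : 0 < √n := Real.sqrt_pos.mpr hn0
  have h4 : n * √n * √n ≤ n * √n * (32 * p * q) := by nlinarith [h3, hs]
  exact le_of_mul_le_mul_left h4 (by positivity)

end Core

end BMD
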