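import Mathlib

/-!
Banach-Mazur distance and Banach-Mazur diameter (definitions for MP_89a7db_an).
-/

namespace BMD

open scoped ENNReal

universe u v

/-- Banach-Mazur distance of two isomorphic normed spaces: the infimum of `‖T‖ * ‖T⁻¹‖` over all
isomorphisms `T` from `Y` onto `Z`. -/
noncomputable def bmDist (Y : Type u) (Z : Type v) [NormedAddCommGroup Y] [NormedSpace ℝ Y]
    [NormedAddCommGroup Z] [NormedSpace ℝ Z] : ℝ :=
  sInf {c : ℝ | ∃ T : Y ≃L[ℝ] Z, c = ‖(T : Y →L[ℝ] Z)‖ * ‖(T.symm : Z →L[ℝ] Y)‖}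

/-- `D(X)`: the supremum of the Banach-Mazur distances `d(Y, Z)` over all Banach spaces `Y`, `Z`
isomorphic to `X`, with values in `[0, ∞]`. -/
noncomputable def bmDiam (X : Type u) [NormedAddCommGroup X] [NormedSpace ℝ X] : ℝ≥0∞ :=
  ⨆ (Y : Type u) (_ : NormedAddCommGroup Y) (_ : NormedSpace ℝ Y) (_ : CompleteSpace Y)
    (_ : Nonempty (X ≃L[ℝ] Y))
    (Z : Type u) (_ : NormedAddCommGroup Z) (_ : NormedSpace ℝ Z) (_ : CompleteSpace Z)
    (_ : Nonempty (X ≃L[ℝ] Z)), ENNReal.ofReal (bmDist Y Z)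

end BMD
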