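import Pool.Agent.Work.MP_89a7db_an.Renorm

/-!
Factorizations of finite-dimensional spaces through a space and through its dual
(helper file for MP_89a7db_an).
-/

namespace BMD

open Finset NormedSpace

universe u

set_option maxSynthPendingDepth 3

/-- an operator into a finite-dimensional space extends to the bidual with the same norm -/
theorem bidual_extend {E : Type*} [NormedAddCommGroup E] [NormedSpace ℝ E]
    [FiniteDimensional ℝ E] {X : Type*} [NormedAddCommGroup X] [NormedSpace ℝ X]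
    (B : X →L[ℝ] E) :
    ∃ B₂ : StrongDual ℝ (StrongDual ℝ X) →L[ℝ] E,
      (∀ x, B₂ (inclusionInDoubleDual ℝ X x) = B x) ∧ ‖B₂‖ ≤ ‖B‖ := by
  let b := Module.finBasis ℝ E
  let c : Fin (Module.finrank ℝ E) → StrongDual ℝ E := fun i =>
    LinearMap.toContinuousLinearMap (b.coord i)
  have hc : ∀ i y, c i y = b.repr y i := fun i y => rfl
  let B₀ : StrongDual ℝ (StrongDual ℝ X) →ₗ[ℝ] E :=
    { toFun := fun φ => ∑ i, φ ((c i).comp B) • b i
      map_add' := by
        intro φ ψ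
        simp only [_root_.add_apply, add_smul, Finset.sum_add_distrib]
      map_smul' := by
        intro r φ
        simp only [_root_.smul_apply, smul_eq_mul, RingHom.id_apply,
          Finset.smul_sum, mul_smul] }
  have hB₀ : ∀ φ, ‖B₀ φ‖ ≤ ‖B‖ * ‖φ‖ := by
    intro φ
    refine norm_le_dual_bound ℝ _ (by positivity) fun g => ?_
    have e1 : g (B₀ φ) = φ (g.comp B) := by
      have e2 : g.comp B = ∑ i, g (b i) • (c i).comp B := by
        ext x
        have e3 : B x = ∑ i, b.repr (B x) i • b i := (b.sum_repr (B x)).symm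
        rw [ContinuousLinearMap.comp_apply]
        conv_lhs => rw [e3]
        rw [map_sum, _root_.sum_apply]
        refine Finset.sum_congr rfl fun i _ => ?_
        rw [map_smul, _root_.smul_apply, ContinuousLinearMap.comp_apply, hc,
          smul_eq_mul, smul_eq_mul, mul_comm]
      rw [e2, map_sum]
      change g (∑ i, φ ((c i).comp B) • b i) = _
      rw [map_sum]
      refine Finset.sum_congr rfl fun i _ => ?_
      rw [map_smul, map_smul, smul_eq_mul, smul_eq_mul, mul_comm]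
    rw [e1]
    calc ‖φ (g.comp B)‖ ≤ ‖φ‖ * ‖g.comp B‖ := φ.le_opNorm _
      _ ≤ ‖φ‖ * (‖g‖ * ‖B‖) :=
          mul_le_mul_of_nonneg_left (ContinuousLinearMap.opNorm_comp_le _ _) (norm_nonneg _)
      _ = ‖B‖ * ‖φ‖ * ‖g‖ := by ring
  refine ⟨B₀.mkContinuous ‖B‖ hB₀, fun x => ?_, LinearMap.mkContinuous_norm_le _ (norm_nonneg _) _⟩
  change ∑ i, (inclusionInDoubleDual ℝ X x) ((c i).comp B) • b i = B x
  rw [← b.sum_repr (B x)]
  refine Finset.sum_congr rfl fun i _ => ?_
  rw [dual_def, ContinuousLinearMap.comp_apply, hc]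

/-- a factorization of the identity of `M*` through `X` gives one of the identity of `M`
through `X*`, for `M` finite-dimensional -/
theorem dual_factor {M : Type*} [NormedAddCommGroup M] [NormedSpace ℝ M] [FiniteDimensional ℝ M]
    {X : Type*} [NormedAddCommGroup X] [NormedSpace ℝ X] (A : StrongDual ℝ M →L[ℝ] X)
    (B : X →L[ℝ] StrongDual ℝ M) (h : ∀ f, B (A f) = f) :
    ∃ (A' : M →L[ℝ] StrongDual ℝ X) (B' : StrongDual ℝ X →L[ℝ] M),
      (∀ z, B' (A' z) = z) ∧ ‖A'‖ ≤ ‖B‖ ∧ ‖B'‖ ≤ ‖A‖ := by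
  obtain ⟨S, hS, hSn⟩ := bidual_extend (ContinuousLinearMap.id ℝ M)
  let P₀ : StrongDual ℝ X →ₗ[ℝ] StrongDual ℝ (StrongDual ℝ M) :=
    { toFun := fun φ => φ.comp A
      map_add' := fun φ ψ => rfl
      map_smul' := fun r φ => rfl }
  have hP₀ : ∀ φ, ‖P₀ φ‖ ≤ ‖A‖ * ‖φ‖ := by
    intro φ
    rw [mul_comm]
    exact ContinuousLinearMap.opNorm_comp_le _ _
  let P := P₀.mkContinuous ‖A‖ hP₀
  have hPn : ‖P‖ ≤ ‖A‖ := LinearMap.mkContinuous_norm_le _ (norm_nonneg _) _
  refine ⟨B.flip, S.comp P, fun z => ?_, (ContinuousLinearMap.opNorm_flip B).le, ?_⟩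
  · have e : P (B.flip z) = inclusionInDoubleDual ℝ M z := by
      ext f
      change B (A f) z = f z
      rw [h]
    change S (P (B.flip z)) = z
    rw [e, hS]
    rfl
  · refine (ContinuousLinearMap.opNorm_comp_le _ _).trans ?_
    calc ‖S‖ * ‖P‖ ≤ 1 * ‖A‖ :=
          mul_le_mul (hSn.trans ContinuousLinearMap.norm_id_le) hPn (norm_nonneg _) zero_le_one
      _ = ‖A‖ := one_mul _

theorem factor_finite_dual {X : Type u} [NormedAddCommGroup X] [NormedSpace ℝ X]
    [CompleteSpace X] (hinf : ¬ FiniteDimensional ℝ X) {C : ℝ} (hX : RadiusLE X C) {E : Type u}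
    [NormedAddCommGroup E] [NormedSpace ℝ E] [FiniteDimensional ℝ E] :
    ∃ (A : E →L[ℝ] StrongDual ℝ X) (B : StrongDual ℝ X →L[ℝ] E),
      (∀ z, B (A z) = z) ∧ ‖A‖ ≤ C ∧ ‖B‖ ≤ 1 := by
  obtain ⟨A, B, hBA, hA, hB⟩ := factor_finite_same hinf hX (E := StrongDual ℝ E)
  obtain ⟨A', B', h1, h2, h3⟩ := dual_factor A B hBA
  exact ⟨A', B', h1, h2.trans hB, h3.trans hA⟩

end BMD
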