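import Pool.Agent.Work.MP_89a7db_an.Chaos

/-!
Sign matrices and the operator norm on real `n × n` matrices (helper file for MP_89a7db_an).
-/

namespace BMD

open Matrix Finset
open scoped Matrix.Norms.L2Operator

section Norm

variable {ι : Type*} [Fintype ι] [DecidableEq ι]

theorem mulVec_bound (A : Matrix ι ι ℝ) (x : ι → ℝ) :
    √(∑ i, (∑ j, A i j * x j) ^ 2) ≤ ‖A‖ * √(∑ j, x j ^ 2) := by
  have h := l2_opNorm_mulVec A ((EuclideanSpace.equiv ι ℝ).symm x)
  rw [EuclideanSpace.norm_eq, EuclideanSpace.norm_eq] at h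
  simpa [Matrix.mulVec, dotProduct, Real.norm_eq_abs, sq_abs] using h

theorem entry_le (A : Matrix ι ι ℝ) (i j : ι) : |A i j| ≤ ‖A‖ := by
  have h := mulVec_bound A (Pi.single j 1)
  have h1 : ∑ k, (Pi.single j (1 : ℝ) : ι → ℝ) k ^ 2 = 1 := by
    rw [Finset.sum_eq_single j]
    · simp
    · intro b _ hb; simp [hb]
    · simp
  rw [h1, Real.sqrt_one, mul_one] at h
  refine le_trans ?_ h
  rw [← Real.sqrt_sq_eq_abs]
  refine Real.sqrt_le_sqrt ?_
  have h2 : A i j ^ 2 = (∑ k, A i k * (Pi.single j (1 : ℝ) : ι → ℝ) k) ^ 2 := by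
    congr 1
    rw [Finset.sum_eq_single j]
    · simp
    · intro b _ hb; simp [hb]
    · simp
  rw [h2]
  exact Finset.single_le_sum
    (f := fun i => (∑ k, A i k * (Pi.single j (1 : ℝ) : ι → ℝ) k) ^ 2)
    (fun k _ => sq_nonneg _) (Finset.mem_univ i)

theorem norm_single_le (i j : ι) : ‖(Matrix.single i j (1 : ℝ))‖ ≤ 1 := by
  have h : ‖(Matrix.single i j (1 : ℝ))ᴴ * Matrix.single i j (1 : ℝ)‖ =
      ‖Matrix.single i j (1 : ℝ)‖ * ‖Matrix.single i j (1 : ℝ)‖ :=
    l2_opNorm_conjTranspose_mul_self _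
  have h1 : (Matrix.single i j (1 : ℝ))ᴴ * Matrix.single i j (1 : ℝ) =
      diagonal (Pi.single j (1 : ℝ)) := by
    rw [Matrix.conjTranspose_single, star_one, Matrix.single_mul_single_same, one_mul,
      Matrix.diagonal_single]
  have h2 : ‖(Pi.single j (1 : ℝ) : ι → ℝ)‖ ≤ 1 := by
    refine (pi_norm_le_iff_of_nonneg zero_le_one).mpr fun a => ?_
    by_cases ha : a = j
    · subst ha; simp
    · simp [ha]
  rw [h1, l2_opNorm_diagonal] at h
  rw [h] at h2
  nlinarith [norm_nonneg (Matrix.single i j (1 : ℝ))]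

/-- sign functionals have norm at most `n` -/
theorem sign_le (A : Matrix ι ι ℝ) (ε δ : ι → Bool) :
    |∑ i, ∑ j, sg (ε i) * sg (δ j) * A i j| ≤ (Fintype.card ι : ℝ) * ‖A‖ := by
  have h := mulVec_bound A (fun j => sg (δ j))
  have hone : ∀ θ : ι → Bool, ∑ j, sg (θ j) ^ 2 = (Fintype.card ι : ℝ) := by
    intro θ
    have : ∀ j, sg (θ j) ^ 2 = 1 := fun j => by rw [sq]; exact sg_sq _
    simp [this]
  rw [hone δ] at h
  have hsum : ∑ i, ∑ j, sg (ε i) * sg (δ j) * A i j = ∑ i, sg (ε i) * ∑ j, A i j * sg (δ j) := by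
    refine Finset.sum_congr rfl fun i _ => ?_
    rw [Finset.mul_sum]
    exact Finset.sum_congr rfl fun j _ => by ring
  rw [hsum]
  have habs : |∑ i, sg (ε i) * ∑ j, A i j * sg (δ j)| ≤
      ∑ i, 1 * |∑ j, A i j * sg (δ j)| := by
    refine (Finset.abs_sum_le_sum_abs _ _).trans (Finset.sum_le_sum fun i _ => ?_)
    rw [abs_mul, sg_abs]
  have hcs := Real.sum_mul_le_sqrt_mul_sqrt Finset.univ (fun _ : ι => (1 : ℝ))
    (fun i => |∑ j, A i j * sg (δ j)|)
  simp only [one_pow, sq_abs, Finset.sum_const, Finset.card_univ, nsmul_eq_mul, mul_one] at hcs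
  set n : ℝ := (Fintype.card ι : ℝ) with hn
  have hn0 : 0 ≤ n := by positivity
  calc |∑ i, sg (ε i) * ∑ j, A i j * sg (δ j)| ≤ ∑ i, 1 * |∑ j, A i j * sg (δ j)| := habs
    _ ≤ √n * √(∑ i, (∑ j, A i j * sg (δ j)) ^ 2) := hcs
    _ ≤ √n * (‖A‖ * √n) := mul_le_mul_of_nonneg_left h (Real.sqrt_nonneg _)
    _ = (√n * √n) * ‖A‖ := by ring
    _ = n * ‖A‖ := by rw [Real.mul_self_sqrt hn0]

end Norm

section Hadamard

variable {k : ℕ}

/-- entries of the Sylvester-Hadamard matrix -/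
def had (i j : Fin k → Bool) : ℝ := ∏ m, if i m && j m then (-1 : ℝ) else 1

theorem had_sq (i j : Fin k → Bool) : had i j * had i j = 1 := by
  unfold had
  rw [← Finset.prod_mul_distrib]
  refine Finset.prod_eq_one fun m _ => ?_
  split_ifs <;> norm_num

theorem had_orth (j j' : Fin k → Bool) :
    ∑ i : Fin k → Bool, had i j * had i j' = if j = j' then (2 : ℝ) ^ k else 0 := by
  have h1 : ∀ i : Fin k → Bool, had i j * had i j' =
      ∏ m, (if i m && j m then (-1 : ℝ) else 1) * (if i m && j' m then (-1 : ℝ) else 1) := by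
    intro i; unfold had; rw [← Finset.prod_mul_distrib]
  rw [Finset.sum_congr rfl (fun i _ => h1 i)]
  have h2 : ∑ i : Fin k → Bool, ∏ m,
      (if i m && j m then (-1 : ℝ) else 1) * (if i m && j' m then (-1 : ℝ) else 1) =
      ∏ m : Fin k, ∑ b : Bool,
        (if b && j m then (-1 : ℝ) else 1) * (if b && j' m then (-1 : ℝ) else 1) :=
    (Fintype.prod_sum (fun (m : Fin k) (b : Bool) =>
      (if b && j m then (-1 : ℝ) else 1) * (if b && j' m then (-1 : ℝ) else 1))).symm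
  rw [h2]
  have h3 : ∀ m : Fin k, ∑ b : Bool,
      (if b && j m then (-1 : ℝ) else 1) * (if b && j' m then (-1 : ℝ) else 1) =
      if j m = j' m then 2 else 0 := by
    intro m
    cases j m <;> cases j' m <;> norm_num
  rw [Finset.prod_congr rfl (fun m _ => h3 m)]
  by_cases hjj : j = j'
  · subst hjj; simp
  · rw [if_neg hjj]
    obtain ⟨m, hm⟩ := Function.ne_iff.mp hjj
    exact Finset.prod_eq_zero (Finset.mem_univ m) (if_neg hm)

/-- Hadamard matrix with signed rows and columns -/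
def hadM (ε δ : (Fin k → Bool) → Bool) : Matrix (Fin k → Bool) (Fin k → Bool) ℝ :=
  fun i j => sg (ε i) * sg (δ j) * had i j

theorem hadM_norm (ε δ : (Fin k → Bool) → Bool) : ‖hadM ε δ‖ ≤ √((2 : ℝ) ^ k) := by
  have h : ‖(hadM ε δ)ᴴ * hadM ε δ‖ = ‖hadM ε δ‖ * ‖hadM ε δ‖ :=
    l2_opNorm_conjTranspose_mul_self _
  have h1 : (hadM ε δ)ᴴ * hadM ε δ = diagonal (fun _ => (2 : ℝ) ^ k) := by
    ext j j'
    rw [Matrix.mul_apply]
    have h2 : ∀ i, (hadM ε δ)ᴴ j i * hadM ε δ i j' =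
        (sg (δ j) * sg (δ j')) * (had i j * had i j') := by
      intro i
      simp only [hadM, Matrix.conjTranspose_apply, star_trivial]
      linear_combination (sg (δ j) * had i j * (sg (δ j') * had i j')) * sg_sq (ε i)
    rw [Finset.sum_congr rfl (fun i _ => h2 i), ← Finset.mul_sum, had_orth, diagonal_apply]
    by_cases hjj : j = j'
    · subst hjj; simp [sg_sq]
    · simp [hjj]
  have h3 : ‖(fun _ : Fin k → Bool => (2 : ℝ) ^ k)‖ ≤ (2 : ℝ) ^ k := by
    refine (pi_norm_le_iff_of_nonneg (by positivity)).mpr fun i => ?_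
    simp
  rw [h1, l2_opNorm_diagonal] at h
  rw [h] at h3
  exact Real.le_sqrt_of_sq_le (by rw [sq]; exact h3)

end Hadamard

end BMD
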