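import Pool.Agent.Work.MP_89a7db_an.Lattice

/-!
Partitions of `e` into step elements localising finitely many elements of a vector lattice
(helper file for MP_89a7db_an).
-/

namespace BMD

variable {L : Type*} [AddCommGroup L] [Lattice L] [IsOrderedAddMonoid L] [Module ℝ L]
  [IsOrderedModule ℝ L]

omit [IsOrderedAddMonoid L] [Module ℝ L] [IsOrderedModule ℝ L] in
theorem pos_mono {a b : L} (h : a ≤ b) : a⁺ ≤ b⁺ := posPart_mono h

omit [Module ℝ L] [IsOrderedModule ℝ L] in
theorem pos_neg_dis (a : L) : a⁺ ⊓ (-a)⁺ = 0 := by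
  have := posPart_inf_negPart_eq_zero a
  rwa [negPart_def, ← posPart_def] at this

omit [Module ℝ L] [IsOrderedModule ℝ L] in
theorem abs_sum_le_lat {ι : Type*} (s : Finset ι) (g : ι → L) : |∑ i ∈ s, g i| ≤ ∑ i ∈ s, |g i| := by
  classical
  induction s using Finset.induction_on with
  | empty => simp
  | insert a s ha ih =>
    rw [Finset.sum_insert ha, Finset.sum_insert ha]
    exact (abs_add_le _ _).trans (by gcongr)

/-- `u` localises `f` at the value `a` up to `δ`. -/
def Loc (f : L) (a : ℝ) (δ : ℝ) (e u : L) : Prop := (|f - a • e| - δ • e)⁺ ⊓ u = 0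

omit [IsOrderedModule ℝ L] in
theorem Loc.mono {f : L} {a δ : ℝ} {e u v : L} (h : Loc f a δ e v) (hu : 0 ≤ u) (huv : u ≤ v) :
    Loc f a δ e u :=
  dis_mono (posPart_nonneg _) le_rfl hu huv h

theorem smul_pos_part {c : ℝ} (hc : 0 ≤ c) (x : L) : (c • x)⁺ ≤ c • x⁺ := by
  rw [posPart_def]
  exact sup_le (smul_le_smul_of_nonneg_left (le_posPart x) hc) (smul_nonneg hc (posPart_nonneg x))

/-- hats: a partition of `e` localising one element -/
theorem hats (f e : L) (hf : |f| ≤ e) (N : ℕ) (hN : 0 < N) :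
    ∃ (h : Fin (N + 1) → L) (b : Fin (N + 1) → ℝ), (∀ i, 0 ≤ h i) ∧ ∑ i, h i = e ∧
      ∀ i, Loc f (b i) (2 / N) e (h i) := by
  have he : 0 ≤ e := (abs_nonneg f).trans hf
  have hNr : (0 : ℝ) < N := by exact_mod_cast hN
  set s : ℝ := N / 2 with hs
  have hs0 : 0 < s := by positivity
  set z : L := s • (f + e) with hz
  have hf1 : -e ≤ f := neg_le.mp ((neg_le_abs f).trans hf)
  have hf2 : f ≤ e := (le_abs_self f).trans hf
  have hz0 : 0 ≤ z := smul_nonneg hs0.le (by rw [← sub_neg_eq_add]; exact sub_nonneg.mpr hf1)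
  have hzN : z ≤ (N : ℝ) • e := by
    have : z ≤ s • ((2 : ℝ) • e) := by
      refine smul_le_smul_of_nonneg_left ?_ hs0.le
      rw [two_smul]; gcongr
    rwa [smul_smul, hs, div_mul_cancel₀ _ (two_ne_zero)] at this
  -- the staircase
  let P : ℕ → L := fun i => match i with
    | 0 => e
    | (i + 1) => (z - (i : ℝ) • e)⁺ ⊓ e
  have hP0 : P 0 = e := rfl
  have hPs : ∀ i, P (i + 1) = (z - (i : ℝ) • e)⁺ ⊓ e := fun i => rfl
  have hPe : ∀ i, P i ≤ e := by
    intro i; cases i with
    | zero => exact le_rfl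
    | succ i => rw [hPs]; exact inf_le_right
  have hPanti : ∀ i, P (i + 1) ≤ P i := by
    intro i; cases i with
    | zero => rw [hP0]; exact hPe 1
    | succ i =>
      rw [hPs, hPs]
      refine inf_le_inf_right _ (pos_mono ?_)
      refine sub_le_sub_left ?_ _
      refine smul_le_of_nonneg he ?_
      push_cast; linarith
  have hPN : P (N + 1) = 0 := by
    rw [hPs]
    have : (z - (N : ℝ) • e)⁺ = 0 := posPart_eq_zero.mpr (sub_nonpos.mpr hzN)
    rw [this]; exact inf_eq_left.mpr he
  refine ⟨fun i => P i - P (i + 1), fun i => (i : ℝ) / s - 1, fun i => (sub_nonneg (α := L)).mpr (hPanti i),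
    ?_, ?_⟩
  · rw [Fin.sum_univ_eq_sum_range (fun i => P i - P (i + 1)) (N + 1), Finset.sum_range_sub' P (N + 1), hP0,
      hPN, sub_zero]
  · intro i
    set y : L := z - ((i : ℕ) : ℝ) • e with hy
    have hfy : f - (((i : ℕ) : ℝ) / s - 1) • e = (1 / s) • y := by
      rw [hy, hz, smul_sub, smul_smul, smul_smul, one_div, inv_mul_cancel₀ hs0.ne', one_smul,
        sub_smul, one_smul, div_eq_inv_mul]
      abel
    have h2N : (2 : ℝ) / N = 1 / s := by rw [hs]; field_simp
    have hle : (|f - (((i : ℕ) : ℝ) / s - 1) • e| - (2 / (N : ℝ)) • e)⁺ ≤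
        (1 / s) • (|y| - e)⁺ := by
      rw [hfy, h2N]
      have h6 : |(1 / s) • y| ≤ (1 / s) • |y| := by
        have := abs_smul_le (1 / s) y
        rwa [abs_of_pos (a := 1 / s) (by positivity)] at this
      have h5 : |(1 / s) • y| - (1 / s) • e ≤ (1 / s) • (|y| - e) := by
        rw [smul_sub (1 / s) (|y|) e]
        exact sub_le_sub_right h6 _
      exact le_trans (pos_mono h5) (smul_pos_part (c := 1 / s) (by positivity) (|y| - e))
    set h : L := P i - P (i + 1) with hh
    have hh0 : 0 ≤ h := sub_nonneg.mpr (hPanti i)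
    have hdis : (|y| - e)⁺ ⊓ h = 0 := by
      have hsplit : (|y| - e)⁺ ≤ (y - e)⁺ + (-y - e)⁺ := by
        rw [posPart_def]
        refine sup_le ?_ (add_nonneg (posPart_nonneg _) (posPart_nonneg _))
        rw [sub_le_iff_le_add, abs]
        refine sup_le ?_ ?_
        · calc y = (y - e) + 0 + e := by abel
            _ ≤ (y - e)⁺ + (-y - e)⁺ + e := by
              gcongr
              · exact le_posPart _
              · exact posPart_nonneg _
        · calc -y = 0 + (-y - e) + e := by abel
            _ ≤ (y - e)⁺ + (-y - e)⁺ + e := by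
              gcongr
              · exact posPart_nonneg _
              · exact le_posPart _
      refine dis_mono (posPart_nonneg _) hsplit hh0 le_rfl ?_
      refine dis_add (posPart_nonneg _) (posPart_nonneg _) hh0 ?_ ?_
      · -- `h ≤ e - P (i+1) ≤ (e - y⁺)⁺`
        have h1 : h ≤ (-(y⁺ - e))⁺ := by
          have : h ≤ e - P (i + 1) := sub_le_sub_right (hPe i) _
          refine this.trans ?_
          rw [hPs, neg_sub, sub_inf, posPart_def]
          refine sup_le_sup le_rfl ?_
          rw [sub_self]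
        refine dis_mono (posPart_nonneg _) (y := (y⁺ - e)⁺) (pos_mono ?_) hh0 h1 (pos_neg_dis _)
        exact sub_le_sub_right (le_posPart y) _
      · rcases Nat.eq_zero_or_pos (i : ℕ) with h0 | h0
        · have hyz : y = z := by rw [hy, h0]; simp
          have : (-y - e)⁺ = 0 := by
            refine posPart_eq_zero.mpr ?_
            rw [hyz, sub_nonpos]
            exact (neg_nonpos.mpr hz0).trans he
          rw [this]; exact inf_eq_left.mpr hh0
        · obtain ⟨j, hj⟩ : ∃ j, (i : ℕ) = j + 1 := ⟨i - 1, by omega⟩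
          have h1 : h ≤ (y + e)⁺ := by
            have h2 : h ≤ P i := by
              rw [hh]; refine sub_le_self _ ?_
              rw [hPs]; exact le_inf (posPart_nonneg _) he
            refine h2.trans ?_
            rw [hj, hPs]
            refine inf_le_left.trans (pos_mono ?_)
            rw [hy, hj]
            have : z - ((j + 1 : ℕ) : ℝ) • e + e = z - (j : ℝ) • e := by
              push_cast; rw [add_smul, one_smul]; abel
            rw [this]
          have h3 : (-y - e)⁺ = (-(y + e))⁺ := by rw [neg_add, sub_eq_add_neg]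
          rw [h3, inf_comm]
          rw [inf_comm]
          refine dis_mono (posPart_nonneg _) le_rfl hh0 h1 ?_
          rw [inf_comm]; exact pos_neg_dis _
    refine dis_mono (posPart_nonneg _) hle hh0 le_rfl ?_
    exact dis_smul (posPart_nonneg _) hh0 hdis (by positivity)

/-- simultaneous localisation of finitely many elements -/
theorem partition {κ : Type*} [DecidableEq κ] (f : κ → L) (e : L) (he0 : 0 ≤ e) (N : ℕ) (hN : 0 < N)
    (s : Finset κ) (hf : ∀ k ∈ s, |f k| ≤ e) :
    ∃ (τ : Type) (_ : Fintype τ) (u : τ → L) (lam : τ → κ → ℝ), (∀ t, 0 ≤ u t) ∧ ∑ t, u t = e ∧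
      ∀ t, ∀ k ∈ s, Loc (f k) (lam t k) (2 / N) e (u t) := by
  induction s using Finset.induction_on with
  | empty => exact ⟨Unit, inferInstance, fun _ => e, fun _ _ => 0, fun _ => he0, by simp, by simp⟩
  | insert k s hk ih =>
    obtain ⟨τ, _, u, lam, hu, hue, hloc⟩ := ih (fun j hj => hf j (Finset.mem_insert_of_mem hj))
    obtain ⟨h, b, hh, hhe, hhl⟩ := hats (f k) e (hf k (Finset.mem_insert_self k s)) N hN
    have hle : ∀ t, u t ≤ ∑ i, h i := fun t => by
      rw [hhe, ← hue]; exact Finset.single_le_sum (fun s _ => hu s) (Finset.mem_univ t)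
    choose v hv hvs using fun t => riesz Finset.univ h (fun i _ => hh i) (u t) (hu t) (hle t)
    refine ⟨τ × Fin (N + 1), inferInstance, fun p => v p.1 p.2,
      fun p => Function.update (lam p.1) k (b p.2), fun p => (hv p.1 p.2 (Finset.mem_univ _)).1,
      ?_, ?_⟩
    · rw [Fintype.sum_prod_type]
      simp only [hvs, hue]
    · rintro ⟨t, i⟩ j hj
      have hvi := hv t i (Finset.mem_univ _)
      by_cases hjk : j = k
      · subst hjk
        simp only [Function.update_self]
        exact (hhl i).mono hvi.1 hvi.2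
      · simp only [Function.update_of_ne hjk]
        refine (hloc t j ((Finset.mem_insert.mp hj).resolve_left hjk)).mono hvi.1 ?_
        rw [← hvs t]
        exact Finset.single_le_sum (fun a _ => (hv t a (Finset.mem_univ _)).1) (Finset.mem_univ i)

omit [IsOrderedModule ℝ L] in
theorem abs_smul_le_add (a : ℝ) (e g : L) (he : 0 ≤ e) : |a| • e ≤ |g| + |g - a • e| := by
  rcases le_total 0 a with h | h
  · rw [abs_of_nonneg h]
    calc a • e = g + -(g - a • e) := by abel
      _ ≤ |g| + |g - a • e| := add_le_add (le_abs_self _) (neg_le_abs _)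
  · rw [abs_of_nonpos h, neg_smul]
    calc -(a • e) = -g + (g - a • e) := by abel
      _ ≤ |g| + |g - a • e| := add_le_add (neg_le_abs _) (le_abs_self _)

/-- **Step approximation** in vector lattices: finitely many elements are approximated by
combinations of step elements `u t`, and the absolute values are controlled at the same time. -/
theorem step_approx {κ : Type*} [Fintype κ] [DecidableEq κ] (f : κ → L) (δ : ℝ) (hδ : 0 < δ) :
    ∃ (τ : Type) (_ : Fintype τ) (u : τ → L) (lam : τ → κ → ℝ), (∀ t, 0 ≤ u t) ∧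
      (∀ c : κ → ℝ, |∑ k, c k • f k - ∑ t, (∑ k, c k * lam t k) • u t| ≤
        (δ * ∑ k, |c k|) • ∑ k, |f k|) ∧
      (∀ c : κ → ℝ, ∑ t, |∑ k, c k * lam t k| • u t ≤
        |∑ k, c k • f k| + (δ * ∑ k, |c k|) • ∑ k, |f k|) := by
  set e : L := ∑ k, |f k| with he
  have he0 : 0 ≤ e := Finset.sum_nonneg fun k _ => abs_nonneg _
  have hfe : ∀ k, |f k| ≤ e := fun k =>
    Finset.single_le_sum (f := fun k => |f k|) (fun j _ => abs_nonneg _) (Finset.mem_univ k)
  obtain ⟨N, hN⟩ := exists_nat_gt (2 / δ)
  have hN0 : 0 < N := by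
    have : (0 : ℝ) < N := lt_trans (by positivity) hN
    exact_mod_cast this
  have hNδ : (2 : ℝ) / N ≤ δ := by
    have hNr : (0 : ℝ) < N := by exact_mod_cast hN0
    rw [div_le_iff₀ hNr]
    rw [div_lt_iff₀ hδ] at hN
    linarith
  obtain ⟨τ, _, u, lam, hu, hue, hloc⟩ := partition f e he0 N hN0 Finset.univ (fun k _ => hfe k)
  -- localisation of combinations
  have hcomb : ∀ (c : κ → ℝ) (t : τ),
      (|∑ k, c k • f k - (∑ k, c k * lam t k) • e| - (δ * ∑ k, |c k|) • e)⁺ ⊓ u t = 0 := by
    intro c t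
    have h1 : |∑ k, c k • f k - (∑ k, c k * lam t k) • e| - (δ * ∑ k, |c k|) • e ≤
        ∑ k, |c k| • (|f k - lam t k • e| - (2 / (N : ℝ)) • e)⁺ := by
      have h2 : ∑ k, c k • f k - (∑ k, c k * lam t k) • e = ∑ k, c k • (f k - lam t k • e) := by
        rw [Finset.sum_smul, ← Finset.sum_sub_distrib]
        refine Finset.sum_congr rfl fun k _ => ?_
        rw [smul_sub, smul_smul]
      have h3 : |∑ k, c k • (f k - lam t k • e)| ≤ ∑ k, |c k| • |f k - lam t k • e| :=
        (abs_sum_le_lat _ _).trans (Finset.sum_le_sum fun k _ => abs_smul_le _ _)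
      rw [h2]
      calc |∑ k, c k • (f k - lam t k • e)| - (δ * ∑ k, |c k|) • e
          ≤ ∑ k, |c k| • |f k - lam t k • e| - ∑ k, (|c k| * (2 / (N : ℝ))) • e := by
            refine sub_le_sub h3 ?_
            rw [← Finset.sum_smul]
            refine smul_le_of_nonneg he0 ?_
            rw [← Finset.sum_mul, mul_comm δ]
            exact mul_le_mul_of_nonneg_left hNδ (Finset.sum_nonneg fun k _ => abs_nonneg _)
        _ = ∑ k, |c k| • (|f k - lam t k • e| - (2 / (N : ℝ)) • e) := by
            rw [← Finset.sum_sub_distrib]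
            refine Finset.sum_congr rfl fun k _ => ?_
            rw [smul_sub, smul_smul]
        _ ≤ _ := Finset.sum_le_sum fun k _ =>
            smul_le_smul_of_nonneg_left (le_posPart _) (abs_nonneg _)
    have h4 : (|∑ k, c k • f k - (∑ k, c k * lam t k) • e| - (δ * ∑ k, |c k|) • e)⁺ ≤
        ∑ k, |c k| • (|f k - lam t k • e| - (2 / (N : ℝ)) • e)⁺ := by
      rw [posPart_def]
      exact sup_le h1 (Finset.sum_nonneg fun k _ => smul_nonneg (abs_nonneg _) (posPart_nonneg _))
    refine dis_mono (posPart_nonneg _) h4 (hu t) le_rfl ?_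
    refine dis_sum _ _ (fun k _ => smul_nonneg (abs_nonneg _) (posPart_nonneg _)) (hu t) ?_
    intro k _
    exact dis_smul (posPart_nonneg _) (hu t) (hloc t k (Finset.mem_univ k)) (abs_nonneg _)
  -- lower bound for combinations
  have hlow : ∀ c : κ → ℝ, -((∑ k, |c k|) • e) ≤ ∑ k, c k • f k := by
    intro c
    have h1 : |∑ k, c k • f k| ≤ (∑ k, |c k|) • e := by
      refine (abs_sum_le_lat _ _).trans ?_
      rw [Finset.sum_smul]
      refine Finset.sum_le_sum fun k _ => (abs_smul_le _ _).trans ?_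
      exact smul_le_smul_of_nonneg_left (hfe k) (abs_nonneg _)
    exact neg_le.mp ((neg_le_abs _).trans h1)
  refine ⟨τ, inferInstance, u, lam, hu, ?_, ?_⟩
  · -- one-sided estimate for all c, then both signs
    have hone : ∀ c : κ → ℝ, ∑ t, (∑ k, c k * lam t k) • u t ≤
        ∑ k, c k • f k + (δ * ∑ k, |c k|) • e := by
      intro c
      have hCe : 0 ≤ (δ * ∑ k, |c k|) • e :=
        smul_nonneg (mul_nonneg hδ.le (Finset.sum_nonneg fun k _ => abs_nonneg _)) he0
      refine step_le u hu (fun t => ∑ k, c k * lam t k) _ e hue (∑ k, |c k|) ?_ ?_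
      · exact (hlow c).trans (le_add_of_nonneg_right hCe)
      · intro t
        refine dis_mono (posPart_nonneg _) (pos_mono ?_) (hu t) le_rfl (hcomb c t)
        calc (∑ k, c k * lam t k) • e - (∑ k, c k • f k + (δ * ∑ k, |c k|) • e)
            = -(∑ k, c k • f k - (∑ k, c k * lam t k) • e) - (δ * ∑ k, |c k|) • e := by abel
          _ ≤ _ := sub_le_sub_right (neg_le_abs _) _
    intro c
    rw [abs]
    refine sup_le ?_ ?_
    · have h1 := hone (fun k => -c k)
      simp only [neg_mul, neg_smul, Finset.sum_neg_distrib, abs_neg] at h1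
      calc ∑ k, c k • f k - ∑ t, (∑ k, c k * lam t k) • u t
          = ∑ k, c k • f k + -∑ t, (∑ k, c k * lam t k) • u t := by abel
        _ ≤ ∑ k, c k • f k + (-∑ k, c k • f k + (δ * ∑ k, |c k|) • e) := by gcongr
        _ = _ := by abel
    · calc -(∑ k, c k • f k - ∑ t, (∑ k, c k * lam t k) • u t)
          = ∑ t, (∑ k, c k * lam t k) • u t - ∑ k, c k • f k := by abel
        _ ≤ (∑ k, c k • f k + (δ * ∑ k, |c k|) • e) - ∑ k, c k • f k :=
            sub_le_sub_right (hone c) _
        _ = _ := by abel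
  · intro c
    have hCe : 0 ≤ (δ * ∑ k, |c k|) • e :=
      smul_nonneg (mul_nonneg hδ.le (Finset.sum_nonneg fun k _ => abs_nonneg _)) he0
    refine step_le u hu (fun t => |∑ k, c k * lam t k|) _ e hue 0 ?_ ?_
    · rw [zero_smul, neg_zero]
      exact add_nonneg (abs_nonneg _) hCe
    · intro t
      refine dis_mono (posPart_nonneg _) (pos_mono ?_) (hu t) le_rfl (hcomb c t)
      calc |∑ k, c k * lam t k| • e - (|∑ k, c k • f k| + (δ * ∑ k, |c k|) • e)
          ≤ (|∑ k, c k • f k| + |∑ k, c k • f k - (∑ k, c k * lam t k) • e|) -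
            (|∑ k, c k • f k| + (δ * ∑ k, |c k|) • e) :=
              sub_le_sub_right (abs_smul_le_add _ _ _ he0) _
        _ = _ := by abel

end BMD
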