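import Pool.Agent.Work.MP_89a7db_an.Core
import Pool.Agent.Work.MP_89a7db_an.Partition

/-!
The identity of the space of `2 ^ k × 2 ^ k` matrices with the operator norm does not factor
well through a Banach lattice (helper file for MP_89a7db_an).
-/

namespace BMD

open Matrix Finset
open scoped Matrix.Norms.L2Operator

variable {L : Type*} [NormedAddCommGroup L] [Lattice L] [HasSolidNorm L] [IsOrderedAddMonoid L]
  [NormedSpace ℝ L] [IsOrderedModule ℝ L]

theorem norm_mono_pos {x y : L} (hx : 0 ≤ x) (h : x ≤ y) : ‖x‖ ≤ ‖y‖ :=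
  norm_le_norm_of_abs_le_abs (by rw [abs_of_nonneg hx, abs_of_nonneg (hx.trans h)]; exact h)

theorem norm_le_of_abs_le_pos {x y : L} (h : |x| ≤ y) : ‖x‖ ≤ ‖y‖ :=
  norm_le_norm_of_abs_le_abs (h.trans (le_abs_self y))

theorem abs_sum_smul_le {τ : Type*} (s : Finset τ) (u : τ → L) (hu : ∀ t, 0 ≤ u t) (y : τ → ℝ) :
    |∑ t ∈ s, y t • u t| ≤ ∑ t ∈ s, |y t| • u t := by
  classical
  induction s using Finset.induction_on with
  | empty => simp
  | insert a s ha ih =>
    rw [Finset.sum_insert ha, Finset.sum_insert ha]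
    refine (abs_add_le _ _).trans (add_le_add ?_ ih)
    exact (abs_smul_le _ _).trans (le_of_eq (by rw [abs_of_nonneg (hu a)]))

theorem lattice_factor {k : ℕ}
    (A' : Matrix (Fin k → Bool) (Fin k → Bool) ℝ →L[ℝ] L)
    (B' : L →L[ℝ] Matrix (Fin k → Bool) (Fin k → Bool) ℝ) (h : ∀ x, B' (A' x) = x) :
    √((2 : ℝ) ^ k) ≤ 32 * (‖A'‖ + 1) * ‖B'‖ := by
  classical
  let κ := (Fin k → Bool) × (Fin k → Bool)
  let f : κ → L := fun x => A' (Matrix.single x.1 x.2 1)
  let c : Matrix (Fin k → Bool) (Fin k → Bool) ℝ → κ → ℝ := fun A x => A x.1 x.2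
  set F : ℝ := ‖∑ x, |f x|‖ with hF
  have hF0 : 0 ≤ F := norm_nonneg _
  set N : ℝ := (Fintype.card κ : ℝ) with hN
  have hN0 : 0 ≤ N := by positivity
  have hc : ∀ A, ∑ x, |c A x| ≤ N * ‖A‖ := by
    intro A
    refine (Finset.sum_le_sum fun x _ => entry_le A x.1 x.2).trans (le_of_eq ?_)
    rw [Finset.sum_const, Finset.card_univ, nsmul_eq_mul]
  have hA : ∀ A, A' A = ∑ x, c A x • f x := by
    intro A
    conv_lhs => rw [Matrix.matrix_eq_sum_single A]
    rw [Fintype.sum_prod_type, map_sum]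
    refine Finset.sum_congr rfl fun i _ => ?_
    rw [map_sum]
    refine Finset.sum_congr rfl fun j _ => ?_
    have e : Matrix.single i j (A i j) = A i j • Matrix.single i j (1 : ℝ) := by
      rw [Matrix.smul_single, smul_eq_mul, mul_one]
    rw [e, map_smul]
  set b : ℝ := ‖B'‖ with hb
  have hb0 : 0 ≤ b := norm_nonneg B'
  set δ : ℝ := 1 / (2 * (b + 1) * (N * F + 1)) with hδ
  have hδ0 : 0 < δ := by positivity
  have hδ1 : δ * (N * F) ≤ 1 / (2 * (b + 1)) := by
    rw [hδ, div_mul_eq_mul_div, div_le_div_iff₀ (by positivity) (by positivity)]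
    have : 0 ≤ N * F := by positivity
    nlinarith
  have hδ2 : b * (δ * (N * F)) ≤ 1 / 2 := by
    have h1 : b * (δ * (N * F)) ≤ b * (1 / (2 * (b + 1))) := mul_le_mul_of_nonneg_left hδ1 hb0
    refine h1.trans ?_
    rw [mul_one_div, div_le_div_iff₀ (by positivity) (by norm_num)]
    linarith
  have hδ3 : δ * (N * F) ≤ 1 := by
    refine hδ1.trans ?_
    rw [div_le_one (by positivity)]
    linarith
  obtain ⟨τ, hτ, u, lam, hu, h1, h2⟩ := step_approx f δ hδ0
  let P : Matrix (Fin k → Bool) (Fin k → Bool) ℝ →ₗ[ℝ] (τ → ℝ) :=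
    { toFun := fun A t => ∑ x, c A x * lam t x
      map_add' := by
        intro A B
        ext t
        simp only [c, Matrix.add_apply, add_mul, Finset.sum_add_distrib, Pi.add_apply]
      map_smul' := by
        intro r A
        ext t
        simp only [c, Matrix.smul_apply, smul_eq_mul, Pi.smul_apply, RingHom.id_apply,
          Finset.mul_sum, mul_assoc] }
  let Q0 : (τ → ℝ) →ₗ[ℝ] L :=
    { toFun := fun y => ∑ t, y t • u t
      map_add' := by
        intro y z
        simp only [Pi.add_apply, add_smul, Finset.sum_add_distrib]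
      map_smul' := by
        intro r y
        simp only [Pi.smul_apply, smul_eq_mul, RingHom.id_apply, Finset.smul_sum, mul_smul] }
  let Q : (τ → ℝ) →ₗ[ℝ] Matrix (Fin k → Bool) (Fin k → Bool) ℝ := B'.toLinearMap ∘ₗ Q0
  let ν : (τ → ℝ) → ℝ := fun y => ‖∑ t, |y t| • u t‖
  have hpos : ∀ y : τ → ℝ, 0 ≤ ∑ t, |y t| • u t := fun y =>
    Finset.sum_nonneg fun t _ => smul_nonneg (abs_nonneg _) (hu t)
  have hadd : ∀ a b, ν (a + b) ≤ ν a + ν b := by
    intro y z
    refine le_trans ?_ (norm_add_le _ _)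
    refine norm_mono_pos (hpos _) ?_
    rw [← Finset.sum_add_distrib]
    refine Finset.sum_le_sum fun t _ => ?_
    rw [← add_smul]
    exact smul_le_smul_of_nonneg_right (abs_add_le _ _) (hu t)
  have hsmul : ∀ (r : ℝ) y, ν (r • y) = |r| * ν y := by
    intro r y
    have e : ∑ t, |(r • y) t| • u t = |r| • ∑ t, |y t| • u t := by
      rw [Finset.smul_sum]
      refine Finset.sum_congr rfl fun t _ => ?_
      rw [Pi.smul_apply, smul_eq_mul, abs_mul, mul_smul]
    change ‖∑ t, |(r • y) t| • u t‖ = _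
    rw [e, norm_smul, Real.norm_eq_abs, abs_abs]
  have hmono : ∀ a b : τ → ℝ, (∀ t, |a t| ≤ |b t|) → ν a ≤ ν b := by
    intro y z hyz
    exact norm_mono_pos (hpos _) (Finset.sum_le_sum fun t _ =>
      smul_le_smul_of_nonneg_right (hyz t) (hu t))
  have herr : ∀ A, ‖(δ * ∑ x, |c A x|) • ∑ x, |f x|‖ ≤ δ * (N * F) * ‖A‖ := by
    intro A
    rw [norm_smul, Real.norm_eq_abs, abs_of_nonneg
      (mul_nonneg hδ0.le (Finset.sum_nonneg fun _ _ => abs_nonneg _)), ← hF]
    have := mul_le_mul_of_nonneg_left (hc A) (mul_nonneg hδ0.le hF0)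
    nlinarith [this]
  have hP : ∀ A, ν (P A) ≤ (‖A'‖ + 1) * ‖A‖ := by
    intro A
    have e1 : ν (P A) ≤ ‖|∑ x, c A x • f x| + (δ * ∑ x, |c A x|) • ∑ x, |f x|‖ :=
      norm_mono_pos (hpos _) (h2 (c A))
    rw [← hA] at e1
    refine e1.trans ((norm_add_le _ _).trans ?_)
    rw [norm_abs_eq_norm]
    have e2 := A'.le_opNorm A
    have e3 := herr A
    have e4 : δ * (N * F) * ‖A‖ ≤ 1 * ‖A‖ := mul_le_mul_of_nonneg_right hδ3 (norm_nonneg _)
    linarith
  have hQ : ∀ y, ‖Q y‖ ≤ b * ν y := by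
    intro y
    refine (B'.le_opNorm _).trans (mul_le_mul_of_nonneg_left ?_ hb0)
    exact norm_le_of_abs_le_pos (abs_sum_smul_le _ u hu y)
  have hPQ : ∀ A, ‖Q (P A) - A‖ ≤ 1 / 2 * ‖A‖ := by
    intro A
    have e1 : Q (P A) - A = B' (Q0 (P A) - A' A) := by
      rw [map_sub, h A]
      rfl
    rw [e1]
    have e2 : ‖Q0 (P A) - A' A‖ ≤ δ * (N * F) * ‖A‖ := by
      refine le_trans ?_ (herr A)
      refine norm_le_of_abs_le_pos ?_
      rw [abs_sub_comm, hA]
      exact h1 (c A)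
    calc ‖B' (Q0 (P A) - A' A)‖ ≤ b * ‖Q0 (P A) - A' A‖ := B'.le_opNorm _
      _ ≤ b * (δ * (N * F) * ‖A‖) := mul_le_mul_of_nonneg_left e2 hb0
      _ = (b * (δ * (N * F))) * ‖A‖ := by ring
      _ ≤ 1 / 2 * ‖A‖ := mul_le_mul_of_nonneg_right hδ2 (norm_nonneg _)
  exact core ν hadd hsmul hmono P Q (‖A'‖ + 1) b (by positivity) hb0 hP hQ hPQ

end BMD
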