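import Mathlib

/-!
Local approximation of finitely many elements of a vector lattice by step elements:
elementary replacement of the Kakutani representation (helper file for MP_89a7db_an).
-/

namespace BMD

section Basic

variable {L : Type*} [AddCommGroup L] [Lattice L] [IsOrderedAddMonoid L]

/-- disjointness is inherited by smaller nonnegative elements -/
theorem dis_mono {x y u v : L} (hx : 0 ≤ x) (hxy : x ≤ y) (hu : 0 ≤ u) (huv : u ≤ v)
    (h : y ⊓ v = 0) : x ⊓ u = 0 :=
  le_antisymm (h ▸ inf_le_inf hxy huv) (le_inf hx hu)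

/-- if `w ≤ p + R`, `w ≤ z`, `z ⊓ R = 0`, then `w ≤ p` (with `p ≥ 0`) -/
theorem le_of_dis {w p R z : L} (hp : 0 ≤ p) (h1 : w ≤ p + R) (h2 : w ≤ z) (h : z ⊓ R = 0) :
    w ≤ p := by
  have h3 : w - p ≤ R := by
    rw [sub_le_iff_le_add]; rwa [add_comm] at h1
  have h4 : w - p ≤ z := (sub_le_self w hp).trans h2
  have h5 : w - p ≤ 0 := h ▸ le_inf h4 h3
  exact sub_nonpos.mp h5

theorem dis_add {x y u : L} (hx : 0 ≤ x) (hy : 0 ≤ y) (hu : 0 ≤ u) (h1 : x ⊓ u = 0)
    (h2 : y ⊓ u = 0) : (x + y) ⊓ u = 0 := by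
  refine le_antisymm ?_ (le_inf (add_nonneg hx hy) hu)
  have h3 : (x + y) ⊓ u ≤ x :=
    le_of_dis (z := u) (R := y) hx inf_le_left inf_le_right (by rw [inf_comm]; exact h2)
  exact h1 ▸ le_inf h3 inf_le_right

theorem dis_sum {ι : Type*} (s : Finset ι) (x : ι → L) {u : L} (hx : ∀ i ∈ s, 0 ≤ x i)
    (hu : 0 ≤ u) (h : ∀ i ∈ s, x i ⊓ u = 0) : (∑ i ∈ s, x i) ⊓ u = 0 := by
  classical
  induction s using Finset.induction_on with
  | empty => simp [hu]
  | insert a s ha ih =>
    rw [Finset.sum_insert ha]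
    refine dis_add (hx a (Finset.mem_insert_self a s)) ?_ hu (h a (Finset.mem_insert_self a s)) ?_
    · exact Finset.sum_nonneg fun i hi => hx i (Finset.mem_insert_of_mem hi)
    · exact ih (fun i hi => hx i (Finset.mem_insert_of_mem hi))
        (fun i hi => h i (Finset.mem_insert_of_mem hi))

/-- Riesz decomposition for a finite sum -/
theorem riesz {ι : Type*} (s : Finset ι) (h : ι → L) (hh : ∀ i ∈ s, 0 ≤ h i) :
    ∀ u : L, 0 ≤ u → u ≤ ∑ i ∈ s, h i →
      ∃ v : ι → L, (∀ i ∈ s, 0 ≤ v i ∧ v i ≤ h i) ∧ ∑ i ∈ s, v i = u := by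
  classical
  induction s using Finset.induction_on with
  | empty =>
    intro u hu hu'
    refine ⟨fun _ => 0, by simp, ?_⟩
    simp only [Finset.sum_empty] at hu' ⊢
    exact le_antisymm hu hu'
  | insert a s ha ih =>
    intro u hu hu'
    rw [Finset.sum_insert ha] at hu'
    have h1 : 0 ≤ u - u ⊓ h a := sub_nonneg.mpr inf_le_left
    have hs : 0 ≤ ∑ i ∈ s, h i := Finset.sum_nonneg fun i hi => hh i (Finset.mem_insert_of_mem hi)
    have h2 : u - u ⊓ h a ≤ ∑ i ∈ s, h i := by
      have : u - ∑ i ∈ s, h i ≤ u ⊓ h a := by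
        refine le_inf (sub_le_self u hs) ?_
        rw [sub_le_iff_le_add]; exact hu'
      exact sub_le_comm.mp this
    obtain ⟨v, hv, hv'⟩ := ih (fun i hi => hh i (Finset.mem_insert_of_mem hi)) _ h1 h2
    refine ⟨Function.update v a (u ⊓ h a), ?_, ?_⟩
    · intro i hi
      by_cases hia : i = a
      · subst hia
        rw [Function.update_self]
        exact ⟨le_inf hu (hh i (Finset.mem_insert_self i s)), inf_le_right⟩
      · rw [Function.update_of_ne hia]
        exact hv i ((Finset.mem_insert.mp hi).resolve_left hia)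
    · rw [Finset.sum_insert ha, Function.update_self]
      have : ∑ i ∈ s, Function.update v a (u ⊓ h a) i = ∑ i ∈ s, v i := by
        refine Finset.sum_congr rfl fun i hi => ?_
        rw [Function.update_of_ne (by rintro rfl; exact ha hi)]
      rw [this, hv']; abel

end Basic

section Mod

variable {L : Type*} [AddCommGroup L] [Lattice L] [IsOrderedAddMonoid L] [Module ℝ L]
  [IsOrderedModule ℝ L]

theorem smul_le_of_nonneg {x : L} (hx : 0 ≤ x) {a b : ℝ} (h : a ≤ b) : a • x ≤ b • x :=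
  smul_le_smul_of_nonneg_right h hx

theorem dis_nsmul {x u : L} (hx : 0 ≤ x) (hu : 0 ≤ u) (h : x ⊓ u = 0) (n : ℕ) :
    ((n : ℝ) • x) ⊓ u = 0 := by
  induction n with
  | zero => simp [hu]
  | succ k ih =>
    have : ((k + 1 : ℕ) : ℝ) • x = (k : ℝ) • x + x := by push_cast; rw [add_smul, one_smul]
    rw [this]
    exact dis_add (smul_nonneg (Nat.cast_nonneg k) hx) hx hu ih h

theorem dis_smul {x u : L} (hx : 0 ≤ x) (hu : 0 ≤ u) (h : x ⊓ u = 0) {c : ℝ} (hc : 0 ≤ c) :
    (c • x) ⊓ u = 0 := by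
  obtain ⟨n, hn⟩ := exists_nat_ge c
  exact dis_mono (smul_nonneg hc hx) (smul_le_of_nonneg hx hn) hu le_rfl (dis_nsmul hx hu h n)

theorem smul_le_abs (c : ℝ) (x : L) : c • x ≤ |c| • |x| := by
  rcases le_total 0 c with h | h
  · rw [abs_of_nonneg h]; exact smul_le_smul_of_nonneg_left (le_abs_self x) h
  · rw [abs_of_nonpos h, ← neg_smul_neg c x]
    exact smul_le_smul_of_nonneg_left (neg_le_abs x) (neg_nonneg.mpr h)

theorem abs_smul_le (c : ℝ) (x : L) : |c • x| ≤ |c| • |x| := by
  rw [abs]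
  refine sup_le (smul_le_abs c x) ?_
  rw [← neg_smul, ← abs_neg c]
  exact smul_le_abs (-c) x

/-- the key comparison: a step element is below `w` if it is so locally -/
theorem step_le {τ : Type*} [Fintype τ] (u : τ → L) (hu : ∀ t, 0 ≤ u t) (lam : τ → ℝ) (w e : L)
    (he : ∑ t, u t = e) (K : ℝ) (hK : -(K • e) ≤ w)
    (h : ∀ t, (lam t • e - w)⁺ ⊓ u t = 0) : ∑ t, lam t • u t ≤ w := by
  classical
  have he0 : 0 ≤ e := he ▸ Finset.sum_nonneg fun t _ => hu t
  set z : L := (∑ t, lam t • u t - w)⁺ with hz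
  have hz0 : 0 ≤ z := posPart_nonneg _
  have hzu : ∀ t, z ⊓ u t = 0 := by
    by_contra hcon
    push Not at hcon
    obtain ⟨t1, ht1⟩ := hcon
    let S : Finset τ := Finset.univ.filter fun t => z ⊓ u t ≠ 0
    have hS : S.Nonempty := ⟨t1, by simp [S, ht1]⟩
    obtain ⟨t0, ht0, hmax⟩ := S.exists_max_image lam hS
    have ht0' : z ⊓ u t0 ≠ 0 := by simpa [S] using ht0
    apply ht0'
    have hbig : ∀ s, lam t0 < lam s → z ⊓ u s = 0 := by
      intro s hs
      by_contra hne
      have : s ∈ S := by simp [S, hne]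
      exact absurd (hmax s this) (not_le.mpr hs)
    set R : L := ∑ s, (max (lam s - lam t0) 0) • u s with hR
    have hR0 : ∀ s, 0 ≤ (max (lam s - lam t0) 0) • u s :=
      fun s => smul_nonneg (le_max_right _ _) (hu s)
    have hzR : z ⊓ R = 0 := by
      rw [inf_comm]
      refine dis_sum _ _ (fun s _ => hR0 s) hz0 fun s _ => ?_
      rcases le_or_gt (lam s) (lam t0) with hle | hgt
      · rw [max_eq_right (by linarith), zero_smul]; exact inf_eq_left.mpr hz0
      · refine dis_smul (hu s) hz0 ?_ (le_max_right _ _)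
        rw [inf_comm]; exact hbig s hgt
    set p : L := (lam t0 • e - w)⁺ with hp
    have hp0 : 0 ≤ p := posPart_nonneg _
    have hsum : ∑ t, lam t • u t ≤ lam t0 • e + R := by
      rw [← he, Finset.smul_sum, hR, ← Finset.sum_add_distrib]
      refine Finset.sum_le_sum fun s _ => ?_
      rw [← add_smul]
      refine smul_le_of_nonneg (hu s) ?_
      have := le_max_left (lam s - lam t0) 0
      linarith
    have hzp : z ≤ p + R := by
      rw [hz, posPart_def]
      refine sup_le ?_ (add_nonneg hp0 (Finset.sum_nonneg fun s _ => hR0 s))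
      calc ∑ t, lam t • u t - w ≤ (lam t0 • e + R) - w := sub_le_sub_right hsum w
        _ = (lam t0 • e - w) + R := by abel
        _ ≤ p + R := by gcongr; exact le_posPart _
    refine le_antisymm ?_ (le_inf hz0 (hu t0))
    have h1 : z ⊓ u t0 ≤ p := le_of_dis hp0 (inf_le_left.trans hzp) inf_le_left hzR
    calc z ⊓ u t0 ≤ p ⊓ u t0 := le_inf h1 inf_le_right
      _ = 0 := h t0
  have hze : e ⊓ z = 0 := by
    rw [← he]
    exact dis_sum _ _ (fun t _ => hu t) hz0 fun t _ => by rw [inf_comm]; exact hzu t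
  -- an upper bound for `z` by a multiple of `e`
  have hex : ∃ C : ℝ, 0 ≤ C ∧ z ≤ C • e := by
    refine ⟨(∑ t, |lam t|) + |K|, by positivity, ?_⟩
    rw [hz, posPart_def]
    refine sup_le ?_ (smul_nonneg (by positivity) he0)
    have h1 : ∑ t, lam t • u t ≤ (∑ t, |lam t|) • e := by
      rw [Finset.sum_smul]
      refine Finset.sum_le_sum fun t _ => ?_
      calc lam t • u t ≤ |lam t| • u t := smul_le_of_nonneg (hu t) (le_abs_self _)
        _ ≤ |lam t| • e := by
          refine smul_le_smul_of_nonneg_left ?_ (abs_nonneg _)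
          rw [← he]; exact Finset.single_le_sum (fun s _ => hu s) (Finset.mem_univ t)
    have h2 : -w ≤ |K| • e := by
      have : -w ≤ K • e := neg_le.mp hK
      exact this.trans (smul_le_of_nonneg he0 (le_abs_self K))
    calc ∑ t, lam t • u t - w = ∑ t, lam t • u t + (-w) := by abel
      _ ≤ (∑ t, |lam t|) • e + |K| • e := add_le_add h1 h2
      _ = _ := by rw [add_smul]
  obtain ⟨C, hC, hzC⟩ := hex
  have hz' : z = 0 := by
    have h1 : (C • e) ⊓ z = 0 := dis_smul he0 hz0 hze hC
    rw [inf_eq_right.mpr hzC] at h1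
    exact h1
  have h3 : ∑ t, lam t • u t - w ≤ 0 := by
    have := le_posPart (∑ t, lam t • u t - w)
    rw [← hz, hz'] at this
    exact this
  exact sub_nonpos.mp h3

end Mod

end BMD
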