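import Pool.Agent.Work.MP_89a7db_an.LatFactor
import Pool.Agent.Work.MP_89a7db_an.Dual

/-!
Banach spaces whose canonical embedding into the bidual factors through a Banach lattice have
infinite Banach-Mazur diameter (helper file for MP_89a7db_an).
-/

namespace BMD

open Matrix Finset NormedSpace
open scoped Matrix.Norms.L2Operator

universe u v

set_option maxSynthPendingDepth 3

/-- if the canonical embedding `V → V**` factors through a normed lattice then the matrix spaces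
do not factor uniformly through `V` -/
theorem no_factor {V : Type*} [NormedAddCommGroup V] [NormedSpace ℝ V] {a b : ℝ}
    (hV : ∀ k : ℕ, ∃ (A : Matrix (Fin k → Bool) (Fin k → Bool) ℝ →L[ℝ] V)
      (B : V →L[ℝ] Matrix (Fin k → Bool) (Fin k → Bool) ℝ),
      (∀ z, B (A z) = z) ∧ ‖A‖ ≤ a ∧ ‖B‖ ≤ b)
    {L : Type*} [NormedAddCommGroup L] [Lattice L] [HasSolidNorm L] [IsOrderedAddMonoid L]
    [NormedSpace ℝ L] [IsOrderedModule ℝ L]
    (j : V →L[ℝ] L) (r : L →L[ℝ] StrongDual ℝ (StrongDual ℝ V))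
    (h : ∀ x, r (j x) = inclusionInDoubleDual ℝ V x) : False := by
  set K : ℝ := 32 * (‖j‖ * |a| + 1) * (|b| * ‖r‖) with hK
  have hK0 : 0 ≤ K := by positivity
  obtain ⟨k, hk⟩ := pow_unbounded_of_one_lt (K ^ 2) (by norm_num : (1 : ℝ) < 2)
  obtain ⟨A, B, hBA, hA, hB⟩ := hV k
  obtain ⟨B₂, hB₂, hB₂n⟩ := bidual_extend B
  have hid : ∀ x, (B₂.comp r) ((j.comp A) x) = x := by
    intro x
    change B₂ (r (j (A x))) = x
    rw [h, hB₂, hBA]
  have h1 := lattice_factor (j.comp A) (B₂.comp r) hid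
  have h2 : ‖j.comp A‖ ≤ ‖j‖ * |a| :=
    (ContinuousLinearMap.opNorm_comp_le _ _).trans
      (mul_le_mul_of_nonneg_left (hA.trans (le_abs_self a)) (norm_nonneg _))
  have h3 : ‖B₂.comp r‖ ≤ |b| * ‖r‖ :=
    (ContinuousLinearMap.opNorm_comp_le _ _).trans
      (mul_le_mul_of_nonneg_right (hB₂n.trans (hB.trans (le_abs_self b))) (norm_nonneg _))
  have h4 : √((2 : ℝ) ^ k) ≤ K := by
    refine h1.trans ?_
    rw [hK]
    refine mul_le_mul ?_ h3 (norm_nonneg _) (by positivity)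
    linarith
  have h5 : (2 : ℝ) ^ k ≤ K ^ 2 := (Real.sqrt_le_left hK0).mp h4
  exact absurd hk (not_lt.mpr h5)

theorem diam_top {X : Type u} [NormedAddCommGroup X] [NormedSpace ℝ X] [CompleteSpace X]
    (hinf : ¬ FiniteDimensional ℝ X)
    {L : Type v} [NormedAddCommGroup L] [Lattice L] [HasSolidNorm L] [IsOrderedAddMonoid L]
    [NormedSpace ℝ L] [IsOrderedModule ℝ L]
    (j : X →L[ℝ] L) (r : L →L[ℝ] StrongDual ℝ (StrongDual ℝ X))
    (h : ∀ x, r (j x) = inclusionInDoubleDual ℝ X x) : bmDiam X = ⊤ := by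
  by_contra hne
  have hX := radiusLE_of_bmDiam X hne
  exact no_factor (a := 1) (b := (bmDiam X).toReal + 1)
    (fun k => factor_finite hinf hX (E := Matrix (Fin k → Bool) (Fin k → Bool) ℝ)) j r h

theorem diam_top_dual {X : Type u} [NormedAddCommGroup X] [NormedSpace ℝ X] [CompleteSpace X]
    (hinf : ¬ FiniteDimensional ℝ X)
    {L : Type v} [NormedAddCommGroup L] [Lattice L] [HasSolidNorm L] [IsOrderedAddMonoid L]
    [NormedSpace ℝ L] [IsOrderedModule ℝ L]
    (j : StrongDual ℝ X →L[ℝ] L)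
    (r : L →L[ℝ] StrongDual ℝ (StrongDual ℝ (StrongDual ℝ X)))
    (h : ∀ x, r (j x) = inclusionInDoubleDual ℝ (StrongDual ℝ X) x) : bmDiam X = ⊤ := by
  by_contra hne
  have hX := radiusLE_of_bmDiam X hne
  refine no_factor (a := (bmDiam X).toReal + 1) (b := 1) (fun k => ?_) j r h
  obtain ⟨A, B, hBA, hA, hB⟩ := factor_finite hinf hX
    (E := StrongDual ℝ (Matrix (Fin k → Bool) (Fin k → Bool) ℝ))
  obtain ⟨A', B', h1, h2, h3⟩ := dual_factor A B hBA
  exact ⟨A', B', h1, h2.trans hB, h3.trans hA⟩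

end BMD
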