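import Pool.Agent.Work.MP_89a7db_an.Defs

/-!
Banach-Mazur distance and the renorming argument (helper file for MP_89a7db_an).
-/

namespace BMD

universe u v

/-- every Banach space isomorphic to `X` is the image of `X` under an isomorphism with
`‖T‖ * ‖T⁻¹‖ ≤ C` -/
def RadiusLE (X : Type u) [NormedAddCommGroup X] [NormedSpace ℝ X] (C : ℝ) : Prop :=
  ∀ (Y : Type u) [NormedAddCommGroup Y] [NormedSpace ℝ Y] [CompleteSpace Y],
    Nonempty (X ≃L[ℝ] Y) →
      ∃ T : X ≃L[ℝ] Y, ‖(T : X →L[ℝ] Y)‖ * ‖(T.symm : Y →L[ℝ] X)‖ ≤ C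

theorem radiusLE_of_lt (X : Type u) [NormedAddCommGroup X] [NormedSpace ℝ X] [CompleteSpace X]
    {C : ℝ} (h : bmDiam X < ENNReal.ofReal C) : RadiusLE X C := by
  intro Y _ _ _ hY
  have h1 : ENNReal.ofReal (bmDist X Y) ≤ bmDiam X := by
    unfold bmDiam
    refine le_iSup_of_le X ?_
    refine le_iSup_of_le inferInstance ?_
    refine le_iSup_of_le inferInstance ?_
    refine le_iSup_of_le inferInstance ?_
    refine le_iSup_of_le ⟨ContinuousLinearEquiv.refl ℝ X⟩ ?_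
    refine le_iSup_of_le Y ?_
    refine le_iSup_of_le inferInstance ?_
    refine le_iSup_of_le inferInstance ?_
    refine le_iSup_of_le inferInstance ?_
    exact le_iSup_of_le hY le_rfl
  have h3 : bmDist X Y < C := (ENNReal.ofReal_lt_ofReal_iff_of_nonneg (by
    refine Real.sInf_nonneg ?_
    rintro c ⟨T, rfl⟩
    positivity)).mp (h1.trans_lt h)
  obtain ⟨T₀⟩ := hY
  have hne : {c : ℝ | ∃ T : X ≃L[ℝ] Y,
      c = ‖(T : X →L[ℝ] Y)‖ * ‖(T.symm : Y →L[ℝ] X)‖}.Nonempty := ⟨_, T₀, rfl⟩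
  obtain ⟨c, ⟨T, rfl⟩, hc⟩ := exists_lt_of_csInf_lt hne h3
  exact ⟨T, hc.le⟩

theorem radiusLE_of_bmDiam (X : Type u) [NormedAddCommGroup X] [NormedSpace ℝ X] [CompleteSpace X]
    (h : bmDiam X ≠ ⊤) : RadiusLE X ((bmDiam X).toReal + 1) := by
  refine radiusLE_of_lt X ?_
  have h1 : bmDiam X = ENNReal.ofReal (bmDiam X).toReal := (ENNReal.ofReal_toReal h).symm
  have h2 : ENNReal.ofReal (bmDiam X).toReal < ENNReal.ofReal ((bmDiam X).toReal + 1) :=
    (ENNReal.ofReal_lt_ofReal_iff (by positivity)).mpr (by linarith)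
  rw [← h1] at h2
  exact h2

section Factor

variable {X : Type*} [NormedAddCommGroup X] [NormedSpace ℝ X]
  {Y : Type*} [NormedAddCommGroup Y] [NormedSpace ℝ Y]
  {Z : Type*} [NormedAddCommGroup Z] [NormedSpace ℝ Z]

theorem factor_of_equiv [Nontrivial X] {C : ℝ} (T : X ≃L[ℝ] Y)
    (hT : ‖(T : X →L[ℝ] Y)‖ * ‖(T.symm : Y →L[ℝ] X)‖ ≤ C) (i : Z →L[ℝ] Y) (π : Y →L[ℝ] Z)
    (hπi : ∀ z, π (i z) = z) (hi : ‖i‖ ≤ 1) (hπ : ‖π‖ ≤ 1) :
    ∃ (A : Z →L[ℝ] X) (B : X →L[ℝ] Z), (∀ z, B (A z) = z) ∧ ‖A‖ ≤ 1 ∧ ‖B‖ ≤ C := by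
  set s : ℝ := ‖(T.symm : Y →L[ℝ] X)‖ with hs
  set t : ℝ := ‖(T : X →L[ℝ] Y)‖ with ht
  have hs0 : 0 ≤ s := norm_nonneg _
  have ht0 : 0 ≤ t := norm_nonneg _
  have hspos : 0 < s := by
    rcases hs0.eq_or_lt with h0 | h0
    · exfalso
      obtain ⟨x, hx⟩ := exists_ne (0 : X)
      have h1 : ‖(T.symm : Y →L[ℝ] X) (T x)‖ ≤ s * ‖T x‖ :=
        (T.symm : Y →L[ℝ] X).le_opNorm (T x)
      rw [← h0, zero_mul] at h1
      have h2 : (T.symm : Y →L[ℝ] X) (T x) = x := T.symm_apply_apply x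
      rw [h2] at h1
      exact hx (norm_le_zero_iff.mp h1)
    · exact h0
  refine ⟨s⁻¹ • (T.symm : Y →L[ℝ] X).comp i, s • π.comp (T : X →L[ℝ] Y), ?_, ?_, ?_⟩
  · intro z
    have e : (s • π.comp (T : X →L[ℝ] Y)) ((s⁻¹ • (T.symm : Y →L[ℝ] X).comp i) z) =
        s • π (T (s⁻¹ • T.symm (i z))) := rfl
    rw [e, map_smul, map_smul, T.apply_symm_apply, hπi, smul_smul, mul_inv_cancel₀ hspos.ne',
      one_smul]
  · rw [norm_smul, norm_inv, Real.norm_eq_abs, abs_of_pos hspos]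
    have h1 : ‖(T.symm : Y →L[ℝ] X).comp i‖ ≤ s * 1 :=
      (ContinuousLinearMap.opNorm_comp_le _ _).trans (mul_le_mul_of_nonneg_left hi hs0)
    calc s⁻¹ * ‖(T.symm : Y →L[ℝ] X).comp i‖ ≤ s⁻¹ * (s * 1) :=
          mul_le_mul_of_nonneg_left h1 (inv_nonneg.mpr hs0)
      _ = 1 := by rw [mul_one, inv_mul_cancel₀ hspos.ne']
  · rw [norm_smul, Real.norm_eq_abs, abs_of_pos hspos]
    have h1 : ‖π.comp (T : X →L[ℝ] Y)‖ ≤ 1 * t :=
      (ContinuousLinearMap.opNorm_comp_le _ _).trans (mul_le_mul_of_nonneg_right hπ ht0)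
    calc s * ‖π.comp (T : X →L[ℝ] Y)‖ ≤ s * (1 * t) := mul_le_mul_of_nonneg_left h1 hs0
      _ = t * s := by ring
      _ ≤ C := hT

end Factor

/-- a space of finite Banach-Mazur radius: the identity of every space isomorphic to a
complemented subspace factors well -/
theorem factor_prod {X : Type u} [NormedAddCommGroup X] [NormedSpace ℝ X] [Nontrivial X]
    {C : ℝ} (hX : RadiusLE X C) {Z : Type u} {W : Type u} [NormedAddCommGroup Z]
    [NormedSpace ℝ Z] [CompleteSpace Z] [NormedAddCommGroup W] [NormedSpace ℝ W]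
    [CompleteSpace W] (e : X ≃L[ℝ] Z × W) :
    ∃ (A : Z →L[ℝ] X) (B : X →L[ℝ] Z), (∀ z, B (A z) = z) ∧ ‖A‖ ≤ 1 ∧ ‖B‖ ≤ C := by
  obtain ⟨T, hT⟩ := hX (Z × W) ⟨e⟩
  exact factor_of_equiv T hT (ContinuousLinearMap.inl ℝ Z W) (ContinuousLinearMap.fst ℝ Z W)
    (fun z => rfl) (ContinuousLinearMap.norm_inl_le_one ℝ Z W)
    (ContinuousLinearMap.norm_fst_le ℝ Z W)

theorem factor_finite {X : Type u} [NormedAddCommGroup X] [NormedSpace ℝ X] [CompleteSpace X]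
    (hinf : ¬ FiniteDimensional ℝ X) {C : ℝ} (hX : RadiusLE X C) {E : Type}
    [NormedAddCommGroup E] [NormedSpace ℝ E] [FiniteDimensional ℝ E] :
    ∃ (A : E →L[ℝ] X) (B : X →L[ℝ] E), (∀ z, B (A z) = z) ∧ ‖A‖ ≤ 1 ∧ ‖B‖ ≤ C := by
  have : Nontrivial X := by
    by_contra h
    rw [not_nontrivial_iff_subsingleton] at h
    exact hinf inferInstance
  have : CompleteSpace E := FiniteDimensional.complete ℝ E
  set n := Module.finrank ℝ E with hn
  have hrank : (n : Cardinal) ≤ Module.rank ℝ X := by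
    refine (Cardinal.natCast_lt_aleph0.le).trans ?_
    exact not_lt.mp fun h => hinf (Module.rank_lt_aleph0_iff.mp h)
  obtain ⟨f, hf⟩ := exists_linearIndependent_of_le_rank hrank
  let F : Submodule ℝ X := Submodule.span ℝ (Set.range f)
  have : FiniteDimensional ℝ F := FiniteDimensional.span_of_finite ℝ (Set.finite_range f)
  have hF : Module.finrank ℝ F = Module.finrank ℝ E := by
    rw [finrank_span_eq_card hf, Fintype.card_fin]
  let e₀ : F ≃L[ℝ] E := ContinuousLinearEquiv.ofFinrankEq hF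
  obtain ⟨g, hg⟩ := Submodule.ClosedComplemented.of_finiteDimensional (𝕜 := ℝ) F
  let f₁ : X →L[ℝ] E := (e₀ : F →L[ℝ] E).comp g
  let f₂ : E →L[ℝ] X := F.subtypeL.comp (e₀.symm : E →L[ℝ] F)
  have h : Function.RightInverse f₂ f₁ := by
    intro z
    change e₀ (g (e₀.symm z : F)) = z
    rw [hg, e₀.apply_symm_apply]
  let e := ContinuousLinearEquiv.equivOfRightInverse f₁ f₂ h
  obtain ⟨T, hT⟩ := hX (E × f₁.ker) ⟨e⟩
  exact factor_of_equiv T hT (ContinuousLinearMap.inl ℝ E f₁.ker)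
    (ContinuousLinearMap.fst ℝ E f₁.ker) (fun z => rfl)
    (ContinuousLinearMap.norm_inl_le_one ℝ E f₁.ker)
    (ContinuousLinearMap.norm_fst_le ℝ E f₁.ker)

theorem factor_finite_same {X : Type u} [NormedAddCommGroup X] [NormedSpace ℝ X] [CompleteSpace X]
    (hinf : ¬ FiniteDimensional ℝ X) {C : ℝ} (hX : RadiusLE X C) {E : Type u}
    [NormedAddCommGroup E] [NormedSpace ℝ E] [FiniteDimensional ℝ E] :
    ∃ (A : E →L[ℝ] X) (B : X →L[ℝ] E), (∀ z, B (A z) = z) ∧ ‖A‖ ≤ 1 ∧ ‖B‖ ≤ C := by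
  have : Nontrivial X := by
    by_contra h
    rw [not_nontrivial_iff_subsingleton] at h
    exact hinf inferInstance
  have : CompleteSpace E := FiniteDimensional.complete ℝ E
  set n := Module.finrank ℝ E with hn
  have hrank : (n : Cardinal) ≤ Module.rank ℝ X := by
    refine (Cardinal.natCast_lt_aleph0.le).trans ?_
    exact not_lt.mp fun h => hinf (Module.rank_lt_aleph0_iff.mp h)
  obtain ⟨f, hf⟩ := exists_linearIndependent_of_le_rank hrank
  let F : Submodule ℝ X := Submodule.span ℝ (Set.range f)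
  have : FiniteDimensional ℝ F := FiniteDimensional.span_of_finite ℝ (Set.finite_range f)
  have hF : Module.finrank ℝ F = Module.finrank ℝ E := by
    rw [finrank_span_eq_card hf, Fintype.card_fin]
  let e₀ : F ≃L[ℝ] E := ContinuousLinearEquiv.ofFinrankEq hF
  obtain ⟨g, hg⟩ := Submodule.ClosedComplemented.of_finiteDimensional (𝕜 := ℝ) F
  let f₁ : X →L[ℝ] E := (e₀ : F →L[ℝ] E).comp g
  let f₂ : E →L[ℝ] X := F.subtypeL.comp (e₀.symm : E →L[ℝ] F)
  have h : Function.RightInverse f₂ f₁ := by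
    intro z
    change e₀ (g (e₀.symm z : F)) = z
    rw [hg, e₀.apply_symm_apply]
  let e := ContinuousLinearEquiv.equivOfRightInverse f₁ f₂ h
  obtain ⟨T, hT⟩ := hX (E × f₁.ker) ⟨e⟩
  exact factor_of_equiv T hT (ContinuousLinearMap.inl ℝ E f₁.ker)
    (ContinuousLinearMap.fst ℝ E f₁.ker) (fun z => rfl)
    (ContinuousLinearMap.norm_inl_le_one ℝ E f₁.ker)
    (ContinuousLinearMap.norm_fst_le ℝ E f₁.ker)

end BMD
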